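import Mathlib

/-!
# Bessel's inequality for bounded functions and the trigonometric system
-/

open MeasureTheory Set Filter Topology

noncomputable section

namespace Pool.Agent.H86.FA

theorem bessel {Ω : Type*} [MeasurableSpace Ω] (μ : Measure Ω) [IsFiniteMeasure μ]
    {ι : Type*} [DecidableEq ι] (s : Finset ι) (e : ι → Ω → ℝ) {κ : ℝ} (hκ : 0 < κ)
    (hem : ∀ i ∈ s, AEStronglyMeasurable (e i) μ) (heb : ∀ i ∈ s, ∀ ω, |e i ω| ≤ 1)
    (horth : ∀ i ∈ s, ∀ j ∈ s, ∫ ω, e i ω * e j ω ∂μ = if i = j then κ else 0)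
    {u : Ω → ℝ} (hu : AEStronglyMeasurable u μ) {C : ℝ} (hub : ∀ᵐ ω ∂μ, |u ω| ≤ C) :
    ∑ i ∈ s, (∫ ω, u ω * e i ω ∂μ) ^ 2 ≤ κ * ∫ ω, u ω ^ 2 ∂μ := by
  set α : ι → ℝ := fun i => ∫ ω, u ω * e i ω ∂μ with hα
  have iue : ∀ i ∈ s, Integrable (fun ω => u ω * e i ω) μ := by
    intro i hi
    apply Integrable.of_bound (hu.mul (hem i hi)) C
    filter_upwards [hub] with ω h
    change ‖u ω * e i ω‖ ≤ C
    rw [Real.norm_eq_abs, abs_mul]
    calc |u ω| * |e i ω| ≤ |u ω| * 1 := mul_le_mul_of_nonneg_left (heb i hi ω) (abs_nonneg _)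
      _ ≤ C := by rw [mul_one]; exact h
  have iee : ∀ i ∈ s, ∀ j ∈ s, Integrable (fun ω => e i ω * e j ω) μ := by
    intro i hi j hj
    apply Integrable.of_bound ((hem i hi).mul (hem j hj)) 1
    filter_upwards with ω
    change ‖e i ω * e j ω‖ ≤ 1
    rw [Real.norm_eq_abs, abs_mul]
    calc |e i ω| * |e j ω| ≤ 1 * 1 :=
          mul_le_mul (heb i hi ω) (heb j hj ω) (abs_nonneg _) zero_le_one
      _ = 1 := one_mul 1
  have iuu : Integrable (fun ω => u ω ^ 2) μ := by
    apply Integrable.of_bound (hu.pow 2) (C ^ 2)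
    filter_upwards [hub] with ω h
    change ‖u ω ^ 2‖ ≤ C ^ 2
    rw [Real.norm_eq_abs, abs_pow]
    exact pow_le_pow_left₀ (abs_nonneg _) h 2
  have huv : (∫ ω, u ω * (∑ i ∈ s, α i * e i ω) ∂μ) = ∑ i ∈ s, α i ^ 2 := by
    have : ∀ ω, u ω * (∑ i ∈ s, α i * e i ω) = ∑ i ∈ s, α i * (u ω * e i ω) := by
      intro ω
      rw [Finset.mul_sum]
      exact Finset.sum_congr rfl fun i _ => by ring
    simp only [this]
    rw [integral_finsetSum]
    · apply Finset.sum_congr rfl
      intro i _
      rw [integral_const_mul]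
      ring
    · intro i hi
      exact (iue i hi).const_mul _
  have hvv : (∫ ω, (∑ i ∈ s, α i * e i ω) ^ 2 ∂μ) = κ * ∑ i ∈ s, α i ^ 2 := by
    have : ∀ ω, (∑ i ∈ s, α i * e i ω) ^ 2
        = ∑ i ∈ s, ∑ j ∈ s, (α i * α j) * (e i ω * e j ω) := by
      intro ω
      rw [sq, Finset.sum_mul_sum]
      exact Finset.sum_congr rfl fun i _ => Finset.sum_congr rfl fun j _ => by ring
    simp only [this]
    rw [integral_finsetSum]
    · rw [Finset.mul_sum]
      apply Finset.sum_congr rfl
      intro i hi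
      rw [integral_finsetSum]
      · have : ∀ j ∈ s, (∫ ω, (α i * α j) * (e i ω * e j ω) ∂μ)
            = if i = j then κ * α i ^ 2 else 0 := by
          intro j hj
          rw [integral_const_mul, horth i hi j hj]
          split_ifs with h
          · subst h; ring
          · ring
        rw [Finset.sum_congr rfl this, Finset.sum_ite_eq]
        simp [hi]
      · intro j hj
        exact (iee i hi j hj).const_mul _
    · intro i hi
      exact integrable_finsetSum _ fun j hj => (iee i hi j hj).const_mul _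
  have iuv : Integrable (fun ω => u ω * (∑ i ∈ s, α i * e i ω)) μ := by
    have : (fun ω => u ω * (∑ i ∈ s, α i * e i ω)) = fun ω => ∑ i ∈ s, α i * (u ω * e i ω) := by
      funext ω
      rw [Finset.mul_sum]
      exact Finset.sum_congr rfl fun i _ => by ring
    rw [this]
    exact integrable_finsetSum _ fun i hi => (iue i hi).const_mul _
  have ivv : Integrable (fun ω => (∑ i ∈ s, α i * e i ω) ^ 2) μ := by
    have : (fun ω => (∑ i ∈ s, α i * e i ω) ^ 2)
        = fun ω => ∑ i ∈ s, ∑ j ∈ s, (α i * α j) * (e i ω * e j ω) := by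
      funext ω
      rw [sq, Finset.sum_mul_sum]
      exact Finset.sum_congr rfl fun i _ => Finset.sum_congr rfl fun j _ => by ring
    rw [this]
    exact integrable_finsetSum _ fun i hi =>
      integrable_finsetSum _ fun j hj => (iee i hi j hj).const_mul _
  have h0 : 0 ≤ ∫ ω, (u ω - (1 / κ) * ∑ i ∈ s, α i * e i ω) ^ 2 ∂μ :=
    integral_nonneg fun ω => sq_nonneg _
  have hexp : (∫ ω, (u ω - (1 / κ) * ∑ i ∈ s, α i * e i ω) ^ 2 ∂μ)
      = (∫ ω, u ω ^ 2 ∂μ) - (2 / κ) * (∫ ω, u ω * (∑ i ∈ s, α i * e i ω) ∂μ)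
        + (1 / κ) ^ 2 * ∫ ω, (∑ i ∈ s, α i * e i ω) ^ 2 ∂μ := by
    rw [← integral_const_mul, ← integral_const_mul, ← integral_sub iuu (iuv.const_mul _)]
    have ia : Integrable (fun ω => u ω ^ 2 - (2 / κ) * (u ω * (∑ i ∈ s, α i * e i ω))) μ :=
      iuu.sub (iuv.const_mul _)
    rw [← integral_add ia (ivv.const_mul _)]
    apply integral_congr_ae
    filter_upwards with ω
    ring
  rw [hexp, huv, hvv] at h0
  have h1 : 0 ≤ κ * ((∫ ω, u ω ^ 2 ∂μ) - (2 / κ) * (∑ i ∈ s, α i ^ 2)
      + (1 / κ) ^ 2 * (κ * ∑ i ∈ s, α i ^ 2)) := mul_nonneg hκ.le h0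
  have h2 : κ * ((∫ ω, u ω ^ 2 ∂μ) - (2 / κ) * (∑ i ∈ s, α i ^ 2)
      + (1 / κ) ^ 2 * (κ * ∑ i ∈ s, α i ^ 2)) = κ * (∫ ω, u ω ^ 2 ∂μ) - ∑ i ∈ s, α i ^ 2 := by
    field_simp
    ring
  rw [h2] at h1
  linarith

/-! ### The trigonometric system -/

theorem int_cos {k : ℤ} : (∫ t in (0:ℝ)..(2 * Real.pi), Real.cos (k * t))
    = if k = 0 then 2 * Real.pi else 0 := by
  split_ifs with h
  · subst h; simp
  · have hk : (k:ℝ) ≠ 0 := by exact_mod_cast h
    have hd : ∀ t : ℝ, HasDerivAt (fun t : ℝ => Real.sin (k * t) / k) (Real.cos (k * t)) t := by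
      intro t
      have h1 : HasDerivAt (fun t : ℝ => (k:ℝ) * t) k t := by
        simpa using (hasDerivAt_id t).const_mul (k:ℝ)
      refine (h1.sin.div_const (k:ℝ)).congr_deriv ?_
      field_simp
    rw [intervalIntegral.integral_eq_sub_of_hasDerivAt (fun t _ => hd t)]
    · have : Real.sin (k * (2 * Real.pi)) = 0 := by
        have := Real.sin_int_mul_pi (2 * k)
        rw [← this]; congr 1; push_cast; ring
      rw [this]; simp
    · apply Continuous.intervalIntegrable; fun_prop

theorem int_sin {k : ℤ} : (∫ t in (0:ℝ)..(2 * Real.pi), Real.sin (k * t)) = 0 := by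
  by_cases h : k = 0
  · subst h; simp
  · have hk : (k:ℝ) ≠ 0 := by exact_mod_cast h
    have hd : ∀ t : ℝ, HasDerivAt (fun t : ℝ => -Real.cos (k * t) / k) (Real.sin (k * t)) t := by
      intro t
      have h1 : HasDerivAt (fun t : ℝ => (k:ℝ) * t) k t := by
        simpa using (hasDerivAt_id t).const_mul (k:ℝ)
      refine (h1.cos.neg.div_const (k:ℝ)).congr_deriv ?_
      field_simp
    rw [intervalIntegral.integral_eq_sub_of_hasDerivAt (fun t _ => hd t)]
    · have : Real.cos (k * (2 * Real.pi)) = 1 := by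
        have := Real.cos_int_mul_two_pi k
        exact this
      rw [this]; simp
    · apply Continuous.intervalIntegrable; fun_prop

/-- The trigonometric system. -/
def trig : ℕ × Bool → ℝ → ℝ
  | (n, true) => fun t => Real.cos (n * t)
  | (n, false) => fun t => Real.sin (n * t)

theorem trig_cont (i : ℕ × Bool) : Continuous (trig i) := by
  rcases i with ⟨n, b⟩
  cases b
  · change Continuous (fun t : ℝ => Real.sin (n * t)); fun_prop
  · change Continuous (fun t : ℝ => Real.cos (n * t)); fun_prop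

theorem trig_bdd (i : ℕ × Bool) (t : ℝ) : |trig i t| ≤ 1 := by
  rcases i with ⟨n, b⟩
  cases b
  · exact Real.abs_sin_le_one _
  · exact Real.abs_cos_le_one _

theorem trig_orth {n m : ℕ} (hn : 0 < n) (hm : 0 < m) (b c : Bool) :
    (∫ t in (0:ℝ)..(2 * Real.pi), trig (n, b) t * trig (m, c) t)
      = if ((n, b) : ℕ × Bool) = (m, c) then Real.pi else 0 := by
  have ci : ∀ k : ℤ, IntervalIntegrable (fun t : ℝ => Real.cos (k * t)) volume 0 (2 * Real.pi) :=
    fun k => by apply Continuous.intervalIntegrable; fun_prop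
  have si : ∀ k : ℤ, IntervalIntegrable (fun t : ℝ => Real.sin (k * t)) volume 0 (2 * Real.pi) :=
    fun k => by apply Continuous.intervalIntegrable; fun_prop
  have hp : ((n:ℤ) + m) ≠ 0 := by omega
  have hq : ((n:ℤ) - m) = 0 ↔ n = m := by omega
  cases b <;> cases c
  · have e : ∀ t : ℝ, trig (n, false) t * trig (m, false) t
        = (1/2) * (Real.cos (((n:ℤ) - m : ℤ) * t) - Real.cos (((n:ℤ) + m : ℤ) * t)) := by
      intro t
      change Real.sin (n * t) * Real.sin (m * t) = _
      push_cast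
      rw [sub_mul, add_mul, Real.cos_sub, Real.cos_add]
      ring
    simp only [e]
    rw [intervalIntegral.integral_const_mul, intervalIntegral.integral_sub (ci _) (ci _),
      int_cos, int_cos, if_neg hp]
    by_cases h : n = m
    · rw [if_pos (hq.mpr h), if_pos (by rw [h])]; ring
    · rw [if_neg (fun h' => h (hq.mp h')), if_neg (by simpa using h)]; ring
  · have e : ∀ t : ℝ, trig (n, false) t * trig (m, true) t
        = (1/2) * (Real.sin (((n:ℤ) + m : ℤ) * t) + Real.sin (((n:ℤ) - m : ℤ) * t)) := by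
      intro t
      change Real.sin (n * t) * Real.cos (m * t) = _
      push_cast
      rw [sub_mul, add_mul, Real.sin_sub, Real.sin_add]
      ring
    simp only [e]
    rw [intervalIntegral.integral_const_mul, intervalIntegral.integral_add (si _) (si _),
      int_sin, int_sin]
    simp
  · have e : ∀ t : ℝ, trig (n, true) t * trig (m, false) t
        = (1/2) * (Real.sin (((n:ℤ) + m : ℤ) * t) - Real.sin (((n:ℤ) - m : ℤ) * t)) := by
      intro t
      change Real.cos (n * t) * Real.sin (m * t) = _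
      push_cast
      rw [sub_mul, add_mul, Real.sin_sub, Real.sin_add]
      ring
    simp only [e]
    rw [intervalIntegral.integral_const_mul, intervalIntegral.integral_sub (si _) (si _),
      int_sin, int_sin]
    simp
  · have e : ∀ t : ℝ, trig (n, true) t * trig (m, true) t
        = (1/2) * (Real.cos (((n:ℤ) - m : ℤ) * t) + Real.cos (((n:ℤ) + m : ℤ) * t)) := by
      intro t
      change Real.cos (n * t) * Real.cos (m * t) = _
      push_cast
      rw [sub_mul, add_mul, Real.cos_sub, Real.cos_add]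
      ring
    simp only [e]
    rw [intervalIntegral.integral_const_mul, intervalIntegral.integral_add (ci _) (ci _),
      int_cos, int_cos, if_neg hp]
    by_cases h : n = m
    · rw [if_pos (hq.mpr h), if_pos (by rw [h])]; ring
    · rw [if_neg (fun h' => h (hq.mp h')), if_neg (by simpa using h)]; ring

/-- Bessel's inequality for the trigonometric system. -/
theorem bessel_trig (s : Finset ℕ) (hs : ∀ n ∈ s, 0 < n) {u : ℝ → ℝ}
    (hu : AEStronglyMeasurable u (volume.restrict (Ioc 0 (2 * Real.pi)))) {C : ℝ}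
    (hub : ∀ᵐ t ∂(volume.restrict (Ioc 0 (2 * Real.pi))), |u t| ≤ C) :
    ∑ n ∈ s, ((∫ t in (0:ℝ)..(2 * Real.pi), u t * Real.cos (n * t)) ^ 2
      + (∫ t in (0:ℝ)..(2 * Real.pi), u t * Real.sin (n * t)) ^ 2)
      ≤ Real.pi * ∫ t in (0:ℝ)..(2 * Real.pi), u t ^ 2 := by
  have h2 : (0:ℝ) ≤ 2 * Real.pi := by positivity
  have := bessel (volume.restrict (Ioc 0 (2 * Real.pi))) (s ×ˢ (Finset.univ : Finset Bool)) trig
    Real.pi_pos (fun i _ => (trig_cont i).aestronglyMeasurable) (fun i _ t => trig_bdd i t) ?_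
    hu hub
  · rw [Finset.sum_product] at this
    simp only [Fintype.univ_bool, Finset.mem_singleton, Bool.true_eq_false, not_false_eq_true,
      Finset.sum_insert, Finset.sum_singleton] at this
    simp only [intervalIntegral.integral_of_le h2]
    exact this
  · rintro ⟨n, b⟩ hi ⟨m, c⟩ hj
    rw [← intervalIntegral.integral_of_le h2]
    exact trig_orth (hs n (Finset.mem_product.mp hi).1) (hs m (Finset.mem_product.mp hj).1) b c

end Pool.Agent.H86.FA
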