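import Pool.Agent.H86.FA.Deriv

/-!
# The pointwise and integrated bounds on one square
-/

open MeasureTheory Set Filter Topology
open scoped NNReal ENNReal

noncomputable section

namespace Pool.Agent.H86.FA

variable {X : Type*} [PseudoMetricSpace X]

/-- The open unit square. -/
def openSquare : Set (ℝ × ℝ) := Ioo 0 1 ×ˢ Ioo 0 1

theorem openSquare_sub : openSquare ⊆ unitSquare :=
  prod_mono Ioo_subset_Icc_self Ioo_subset_Icc_self

theorem isOpen_openSquare : IsOpen openSquare := isOpen_Ioo.prod isOpen_Ioo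

theorem fderiv_split {f : ℝ × ℝ → ℝ} {p : ℝ × ℝ} (v w : ℝ) :
    fderiv ℝ f p (v, w) = fderiv ℝ f p (1, 0) * v + fderiv ℝ f p (0, 1) * w := by
  have : ((v, w) : ℝ × ℝ) = v • (1, 0) + w • (0, 1) := by
    simp
  rw [this, map_add, map_smul, map_smul, smul_eq_mul, smul_eq_mul]
  ring

theorem dominated (γ : Circ → X) (S : RSquare X) : ∀ᵐ p : ℝ × ℝ, p ∈ openSquare →
    ∀ t : ℝ, DifferentiableAt ℝ (gd γ S t) p → ∀ v w : ℝ,
      (fderiv ℝ (gd γ S t) p (1, 0) * v + fderiv ℝ (gd γ S t) p (0, 1) * w) ^ 2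
        ≤ S.E p * v ^ 2 + 2 * S.F p * v * w + S.G p * w ^ 2 := by
  filter_upwards [S.speed] with p hp hpo t hd v w
  have hps : p ∈ unitSquare := openSquare_sub hpo
  have hsp := hp hps (v, w)
  rw [← fderiv_split]
  set Q : ℝ := S.E p * v ^ 2 + 2 * S.F p * v * w + S.G p * w ^ 2 with hQ
  have hQ0 : 0 ≤ Q := by
    obtain ⟨h1, h2, h3⟩ := S.psd p hps
    rcases h1.eq_or_lt with h | h
    · rw [← h, zero_mul] at h3
      have hF : S.F p = 0 := by nlinarith [sq_nonneg (S.F p)]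
      rw [hQ, ← h, hF]
      nlinarith [sq_nonneg w]
    · have : 0 ≤ S.E p * Q := by
        have e : S.E p * Q = (S.E p * v + S.F p * w) ^ 2 + (S.E p * S.G p - S.F p ^ 2) * w ^ 2 := by
          rw [hQ]; ring
        rw [e]
        have : 0 ≤ (S.E p * S.G p - S.F p ^ 2) * w ^ 2 := mul_nonneg (by linarith) (sq_nonneg w)
        nlinarith [sq_nonneg (S.E p * v + S.F p * w)]
      exact nonneg_of_mul_nonneg_right this h
  have hle : ∀ ε > 0, |fderiv ℝ (gd γ S t) p (v, w)| ≤ √Q + ε := by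
    intro ε hε
    have hlim := (slope_lim hd (v, w)).abs
    apply le_of_tendsto hlim
    have hnear : ∀ᶠ h : ℝ in 𝓝[>] 0, p + h • ((v, w) : ℝ × ℝ) ∈ openSquare := by
      have hc : Tendsto (fun h : ℝ => p + h • ((v, w) : ℝ × ℝ)) (𝓝 0) (𝓝 p) := by
        have : Continuous (fun h : ℝ => p + h • ((v, w) : ℝ × ℝ)) := by fun_prop
        have := this.tendsto 0
        simpa using this
      exact (hc.mono_left nhdsWithin_le_nhds) (isOpen_openSquare.mem_nhds hpo)
    filter_upwards [hsp ε hε, hnear, self_mem_nhdsWithin] with h h1 h2 h3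
    have h0 : (0:ℝ) < h := h3
    rw [abs_div, abs_of_pos h0, div_le_iff₀ h0]
    have h4 : |gd γ S t (p + h • (v, w)) - gd γ S t p|
        ≤ dist (S.τ (p + h • (v, w))) (S.τ p) := bdist_lip_right γ _ _ _
    rw [S.τ_eq (openSquare_sub h2), S.τ_eq hps] at h4
    rw [mul_comm]
    refine h4.trans ?_
    exact h1
  have hle' : |fderiv ℝ (gd γ S t) p (v, w)| ≤ √Q := le_of_forall_pos_le_add hle
  calc fderiv ℝ (gd γ S t) p (v, w) ^ 2 = |fderiv ℝ (gd γ S t) p (v, w)| ^ 2 := (sq_abs _).symm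
    _ ≤ √Q ^ 2 := pow_le_pow_left₀ (abs_nonneg _) hle' 2
    _ = Q := Real.sq_sqrt hQ0

theorem jac_coef (γ : Circ → X) (S : RSquare X) (n : ℕ) {p : ℝ × ℝ}
    (hp : ∀ᵐ t : ℝ, DifferentiableAt ℝ (gd γ S t) p) :
    jac (fun q => cosC γ n (S.τ q)) (fun q => sinC γ n (S.τ q)) p
      = (∫ t in (0:ℝ)..(2 * Real.pi), fderiv ℝ (gd γ S t) p (1, 0) * Real.cos (n * t))
        * (∫ t in (0:ℝ)..(2 * Real.pi), fderiv ℝ (gd γ S t) p (0, 1) * Real.sin (n * t))
        - (∫ t in (0:ℝ)..(2 * Real.pi), fderiv ℝ (gd γ S t) p (1, 0) * Real.sin (n * t))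
        * (∫ t in (0:ℝ)..(2 * Real.pi), fderiv ℝ (gd γ S t) p (0, 1) * Real.cos (n * t)) := by
  have hc : Continuous (fun t : ℝ => Real.cos (n * t)) := by fun_prop
  have hs : Continuous (fun t : ℝ => Real.sin (n * t)) := by fun_prop
  unfold jac cosC sinC
  rw [coef_fderiv γ S hc (fun t => Real.abs_cos_le_one _) hp,
    coef_fderiv γ S hc (fun t => Real.abs_cos_le_one _) hp,
    coef_fderiv γ S hs (fun t => Real.abs_sin_le_one _) hp,
    coef_fderiv γ S hs (fun t => Real.abs_sin_le_one _) hp]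
  ring

theorem pointwise (γ : Circ → X) (S : RSquare X) (s : Finset ℕ) (hs : ∀ n ∈ s, 0 < n) :
    ∀ᵐ p : ℝ × ℝ, p ∈ openSquare →
      ∑ n ∈ s, |jac (fun q => cosC γ n (S.τ q)) (fun q => sinC γ n (S.τ q)) p|
        ≤ Real.pi ^ 2 * √(S.E p * S.G p - S.F p ^ 2) := by
  filter_upwards [dominated γ S, ae_diff γ S] with p h1 h2 hpo
  obtain ⟨hE, hG, hF⟩ := S.psd p (openSquare_sub hpo)
  have hdom := h1 hpo
  simp only [jac_coef γ S _ h2]
  have h2r := ae_restrict_of_ae (s := Ioc 0 (2 * Real.pi)) h2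
  have key : ∀ ε > 0, ∑ n ∈ s,
      |(∫ t in (0:ℝ)..(2 * Real.pi), fderiv ℝ (gd γ S t) p (1, 0) * Real.cos (n * t))
        * (∫ t in (0:ℝ)..(2 * Real.pi), fderiv ℝ (gd γ S t) p (0, 1) * Real.sin (n * t))
        - (∫ t in (0:ℝ)..(2 * Real.pi), fderiv ℝ (gd γ S t) p (1, 0) * Real.sin (n * t))
        * (∫ t in (0:ℝ)..(2 * Real.pi), fderiv ℝ (gd γ S t) p (0, 1) * Real.cos (n * t))|
      ≤ Real.pi ^ 2 * √((S.E p + ε) * (S.G p + ε) - S.F p ^ 2) := by
    intro ε hε
    apply sum_bound (C := √(S.E p + S.G p)) hs (fderiv_meas γ S p _).aestronglyMeasurable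
      (fderiv_meas γ S p _).aestronglyMeasurable
    · filter_upwards [h2r] with t ht
      have := hdom t ht 1 0
      apply Real.abs_le_sqrt
      nlinarith
    · filter_upwards [h2r] with t ht
      have := hdom t ht 0 1
      apply Real.abs_le_sqrt
      nlinarith
    · positivity
    · nlinarith [mul_pos hε hε, mul_nonneg hE hε.le, mul_nonneg hG hε.le]
    · filter_upwards [h2r] with t ht
      apply dual_ineq
      · nlinarith [mul_pos hε hε, mul_nonneg hE hε.le, mul_nonneg hG hε.le]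
      · intro v w
        have := hdom t ht v w
        nlinarith [mul_nonneg hε.le (sq_nonneg v), mul_nonneg hε.le (sq_nonneg w)]
  have hlim : Tendsto (fun ε : ℝ => Real.pi ^ 2 * √((S.E p + ε) * (S.G p + ε) - S.F p ^ 2))
      (𝓝[>] 0) (𝓝 (Real.pi ^ 2 * √(S.E p * S.G p - S.F p ^ 2))) := by
    have hc : Continuous (fun ε : ℝ => Real.pi ^ 2 * √((S.E p + ε) * (S.G p + ε) - S.F p ^ 2)) := by
      fun_prop
    have := hc.tendsto 0
    simp only [add_zero] at this
    exact this.mono_left nhdsWithin_le_nhds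
  apply ge_of_tendsto hlim
  filter_upwards [self_mem_nhdsWithin] with ε hε
  exact key ε hε

theorem square_bound (γ : Circ → X) (S : RSquare X) (s : Finset ℕ) (hs : ∀ n ∈ s, 0 < n) :
    ENNReal.ofReal (∑ n ∈ s, |S.boundaryIntegral (cosC γ n) (sinC γ n)|)
      ≤ ENNReal.ofReal (Real.pi ^ 2) * S.area := by
  have hlipc : ∀ n : ℕ, ∃ K : ℝ≥0, LipschitzWith K (cosC γ n : X → ℝ) := fun n =>
    coef_lip γ (u := fun t : ℝ => Real.cos (n * t)) (by fun_prop) (fun t => Real.abs_cos_le_one _)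
  have hlips : ∀ n : ℕ, ∃ K : ℝ≥0, LipschitzWith K (sinC γ n : X → ℝ) := fun n =>
    coef_lip γ (u := fun t : ℝ => Real.sin (n * t)) (by fun_prop) (fun t => Real.abs_sin_le_one _)
  set J : ℕ → ℝ × ℝ → ℝ := fun n p =>
    jac (fun q => cosC γ n (S.τ q)) (fun q => sinC γ n (S.τ q)) p with hJ
  have hJm : ∀ n, Measurable (J n) := by
    intro n
    simp only [hJ, jac]
    exact ((measurable_fderiv_apply_const ℝ _ _).mul (measurable_fderiv_apply_const ℝ _ _)).sub
      ((measurable_fderiv_apply_const ℝ _ _).mul (measurable_fderiv_apply_const ℝ _ _))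
  have h1 : ∀ n ∈ s, ENNReal.ofReal |S.boundaryIntegral (cosC γ n) (sinC γ n)|
      ≤ ∫⁻ p in Ioc (0:ℝ) 1 ×ˢ Ioc (0:ℝ) 1, ENNReal.ofReal |J n p| := by
    intro n _
    obtain ⟨K, hK⟩ := hlipc n
    obtain ⟨K', hK'⟩ := hlips n
    rw [S.stokes hK hK', ← Real.norm_eq_abs, ofReal_norm]
    refine (enorm_integral_le_lintegral_enorm _).trans (le_of_eq ?_)
    apply lintegral_congr
    intro p
    rw [← ofReal_norm, Real.norm_eq_abs]
  rw [ENNReal.ofReal_sum_of_nonneg (fun n _ => abs_nonneg _)]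
  refine (Finset.sum_le_sum h1).trans ?_
  rw [← lintegral_finsetSum s (fun n _ => ((hJm n).abs).ennreal_ofReal)]
  -- replace the half open square by the open one
  have hset : (Ioc (0:ℝ) 1 ×ˢ Ioc (0:ℝ) 1 : Set (ℝ × ℝ)) =ᵐ[volume] openSquare := by
    rw [Measure.volume_eq_prod]
    exact Measure.set_prod_ae_eq Ioo_ae_eq_Ioc.symm Ioo_ae_eq_Ioc.symm
  rw [setLIntegral_congr hset]
  have h2 : ∫⁻ p in openSquare, ∑ n ∈ s, ENNReal.ofReal |J n p|
      ≤ ∫⁻ p in openSquare, ENNReal.ofReal (Real.pi ^ 2)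
          * ENNReal.ofReal √(S.E p * S.G p - S.F p ^ 2) := by
    apply lintegral_mono_ae
    filter_upwards [ae_restrict_mem isOpen_openSquare.measurableSet,
      ae_restrict_of_ae (pointwise γ S s hs)] with p hp h
    rw [← ENNReal.ofReal_sum_of_nonneg (fun n _ => abs_nonneg _),
      ← ENNReal.ofReal_mul (by positivity)]
    exact ENNReal.ofReal_le_ofReal (h hp)
  refine h2.trans ?_
  rw [lintegral_const_mul']
  · exact mul_le_mul_right (lintegral_mono_set openSquare_sub) _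
  · exact ENNReal.ofReal_ne_top

end Pool.Agent.H86.FA
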