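import Pool.Agent.H86.FA.Defs

/-!
# The boundary distance functions of a nonshortcutting loop and their Fourier coefficients
-/

open MeasureTheory Set Filter Topology

noncomputable section

namespace Pool.Agent.H86.FA

variable {X : Type*} [PseudoMetricSpace X]

/-- The boundary distance functions of a loop `γ`. -/
def bdist (γ : Circ → X) (θ : Circ) (x : X) : ℝ := ⨅ s : Circ, (dist θ s + dist x (γ s))

theorem bdist_bddBelow (γ : Circ → X) (θ : Circ) (x : X) :
    BddBelow (range fun s : Circ => dist θ s + dist x (γ s)) :=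
  ⟨0, by rintro _ ⟨s, rfl⟩; positivity⟩

theorem bdist_le (γ : Circ → X) (θ : Circ) (x : X) (s : Circ) :
    bdist γ θ x ≤ dist θ s + dist x (γ s) := ciInf_le (bdist_bddBelow γ θ x) s

theorem bdist_nonneg (γ : Circ → X) (θ : Circ) (x : X) : 0 ≤ bdist γ θ x :=
  le_ciInf fun s => by positivity

theorem bdist_lip_right (γ : Circ → X) (θ : Circ) (x y : X) :
    |bdist γ θ x - bdist γ θ y| ≤ dist x y := by
  have key : ∀ x y : X, bdist γ θ x ≤ bdist γ θ y + dist x y := by
    intro x y
    rw [← sub_le_iff_le_add]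
    apply le_ciInf
    intro s
    have h1 := bdist_le γ θ x s
    have h2 := dist_triangle x y (γ s)
    linarith
  rw [abs_sub_le_iff]
  constructor
  · have := key x y; linarith
  · have := key y x; rw [dist_comm y x] at this; linarith

theorem bdist_lip_left (γ : Circ → X) (θ φ : Circ) (x : X) :
    |bdist γ θ x - bdist γ φ x| ≤ dist θ φ := by
  have key : ∀ θ φ : Circ, bdist γ θ x ≤ bdist γ φ x + dist θ φ := by
    intro θ φ
    rw [← sub_le_iff_le_add]
    apply le_ciInf
    intro s
    have h1 := bdist_le γ θ x s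
    have h2 := dist_triangle θ φ s
    linarith
  rw [abs_sub_le_iff]
  constructor
  · have := key θ φ; linarith
  · have := key φ θ; rw [dist_comm φ θ] at this; linarith

theorem bdist_boundary {γ : Circ → X} (hγ : ∀ s t, dist s t ≤ dist (γ s) (γ t)) (θ s : Circ) :
    bdist γ θ (γ s) = dist θ s := by
  apply le_antisymm
  · have := bdist_le γ θ (γ s) s
    simpa using this
  · apply le_ciInf
    intro t
    have h1 := hγ s t
    have h2 := dist_triangle θ t s
    rw [dist_comm t s] at h2
    linarith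

/-- The cosine coefficient. -/
def cosC (γ : Circ → X) (n : ℕ) (x : X) : ℝ :=
  ∫ t in (0:ℝ)..(2 * Real.pi), bdist γ (t : Circ) x * Real.cos (n * t)

/-- The sine coefficient. -/
def sinC (γ : Circ → X) (n : ℕ) (x : X) : ℝ :=
  ∫ t in (0:ℝ)..(2 * Real.pi), bdist γ (t : Circ) x * Real.sin (n * t)

theorem norm_circ {t : ℝ} (ht : |t| ≤ Real.pi) : ‖(t : Circ)‖ = |t| := by
  rw [AddCircle.norm_coe_eq_abs_iff _ (by positivity)]
  rw [abs_of_pos (by positivity : (0:ℝ) < 2 * Real.pi)]
  linarith

theorem periodic_cos (n : ℕ) : Function.Periodic (fun t : ℝ => Real.cos (n * t)) (2 * Real.pi) := by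
  intro t
  simp only
  rw [mul_add]
  have := Real.cos_add_nat_mul_two_pi (n * t) n
  exact this

theorem periodic_sin (n : ℕ) : Function.Periodic (fun t : ℝ => Real.sin (n * t)) (2 * Real.pi) := by
  intro t
  simp only
  rw [mul_add]
  have := Real.sin_add_nat_mul_two_pi (n * t) n
  exact this

theorem abs_cos_integral {n : ℕ} (hn : Odd n) :
    ∫ t in (-Real.pi)..Real.pi, |t| * Real.cos (n * t) = -(4 / (n:ℝ) ^ 2) := by
  have hn0 : (n:ℝ) ≠ 0 := by
    have := hn.pos; positivity
  have hcos : Real.cos (n * Real.pi) = -1 := by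
    rw [Real.cos_nat_mul_pi, hn.neg_one_pow]
  have hsin : Real.sin (n * Real.pi) = 0 := Real.sin_nat_mul_pi n
  have hd : ∀ t : ℝ, HasDerivAt (fun t : ℝ => t * Real.sin (n * t) / n + Real.cos (n * t) / n ^ 2)
      (t * Real.cos (n * t)) t := by
    intro t
    have h1 : HasDerivAt (fun t : ℝ => (n:ℝ) * t) n t := by
      simpa using (hasDerivAt_id t).const_mul (n:ℝ)
    have h2 := ((hasDerivAt_id t).mul h1.sin).div_const (n:ℝ)
    have h3 := h1.cos.div_const ((n:ℝ) ^ 2)
    have h4 := h2.add h3
    refine HasDerivAt.congr_deriv h4 ?_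
    simp only [id]
    field_simp
    ring
  have hc : ∀ a b : ℝ, IntervalIntegrable (fun t : ℝ => t * Real.cos (n * t)) volume a b := by
    intro a b
    apply Continuous.intervalIntegrable
    fun_prop
  have i1 : (∫ t in (0:ℝ)..Real.pi, t * Real.cos (n * t)) = -(2 / (n:ℝ) ^ 2) := by
    rw [intervalIntegral.integral_eq_sub_of_hasDerivAt (fun t _ => hd t) (hc _ _)]
    rw [hcos, hsin]
    simp
    ring
  have i2 : (∫ t in (-Real.pi)..0, t * Real.cos (n * t)) = 2 / (n:ℝ) ^ 2 := by
    rw [intervalIntegral.integral_eq_sub_of_hasDerivAt (fun t _ => hd t) (hc _ _)]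
    rw [mul_neg, Real.cos_neg, Real.sin_neg, hcos, hsin]
    simp
    ring
  have hci : ∀ a b : ℝ, IntervalIntegrable (fun t : ℝ => |t| * Real.cos (n * t)) volume a b := by
    intro a b
    apply Continuous.intervalIntegrable
    fun_prop
  rw [← intervalIntegral.integral_add_adjacent_intervals (hci (-Real.pi) 0) (hci 0 Real.pi)]
  have e1 : (∫ t in (-Real.pi)..0, |t| * Real.cos (n * t))
      = -∫ t in (-Real.pi)..0, t * Real.cos (n * t) := by
    rw [← intervalIntegral.integral_neg]
    apply intervalIntegral.integral_congr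
    intro t ht
    rw [uIcc_of_le (by linarith [Real.pi_pos])] at ht
    simp only
    rw [abs_of_nonpos ht.2]
    ring
  have e2 : (∫ t in (0:ℝ)..Real.pi, |t| * Real.cos (n * t))
      = ∫ t in (0:ℝ)..Real.pi, t * Real.cos (n * t) := by
    apply intervalIntegral.integral_congr
    intro t ht
    rw [uIcc_of_le Real.pi_pos.le] at ht
    simp only
    rw [abs_of_nonneg ht.1]
  rw [e1, e2, i1, i2]
  ring

theorem abs_sin_integral (n : ℕ) :
    ∫ t in (-Real.pi)..Real.pi, |t| * Real.sin (n * t) = 0 := by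
  have h := intervalIntegral.integral_comp_neg (a := -Real.pi) (b := Real.pi)
    (fun t => |t| * Real.sin (n * t))
  simp only [abs_neg, mul_neg, Real.sin_neg, neg_neg, intervalIntegral.integral_neg] at h
  linarith

theorem shift_integral (φ : ℝ) {u : ℝ → ℝ} (hu : Function.Periodic u (2 * Real.pi)) :
    (∫ t in (0:ℝ)..(2 * Real.pi), dist (t : Circ) (φ : Circ) * u t)
      = ∫ t in (-Real.pi)..Real.pi, |t| * u (t + φ) := by
  have hper : Function.Periodic (fun t : ℝ => dist (t : Circ) (φ : Circ) * u t)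
      (2 * Real.pi) := by
    intro t
    simp only
    rw [hu t]
    congr 2
    exact AddCircle.coe_add_period _ t
  have h1 := hper.intervalIntegral_add_eq 0 (φ - Real.pi)
  rw [zero_add] at h1
  rw [h1, show φ - Real.pi + 2 * Real.pi = Real.pi + φ by ring,
    show φ - Real.pi = -Real.pi + φ by ring]
  rw [← intervalIntegral.integral_comp_add_right (fun t => dist (t : Circ) (φ : Circ) * u t) φ]
  apply intervalIntegral.integral_congr
  intro t ht
  rw [uIcc_of_le (by linarith [Real.pi_pos])] at ht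
  simp only
  congr 1
  rw [dist_eq_norm, ← AddCircle.coe_sub, add_sub_cancel_right]
  exact norm_circ (abs_le.mpr ht)

theorem cosC_boundary {γ : Circ → X} (hγ : ∀ s t, dist s t ≤ dist (γ s) (γ t)) {n : ℕ}
    (hn : Odd n) (φ : ℝ) : cosC γ n (γ (φ : Circ)) = -(4 / (n:ℝ) ^ 2) * Real.cos (n * φ) := by
  unfold cosC
  simp only [bdist_boundary hγ]
  rw [shift_integral φ (periodic_cos n)]
  have e : ∀ t : ℝ, |t| * Real.cos (n * (t + φ))
      = (|t| * Real.cos (n * t)) * Real.cos (n * φ) - (|t| * Real.sin (n * t)) * Real.sin (n * φ) := by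
    intro t
    rw [mul_add, Real.cos_add]
    ring
  simp only [e]
  rw [intervalIntegral.integral_sub, intervalIntegral.integral_mul_const,
    intervalIntegral.integral_mul_const, abs_cos_integral hn, abs_sin_integral]
  · ring
  · apply Continuous.intervalIntegrable; fun_prop
  · apply Continuous.intervalIntegrable; fun_prop

theorem sinC_boundary {γ : Circ → X} (hγ : ∀ s t, dist s t ≤ dist (γ s) (γ t)) {n : ℕ}
    (hn : Odd n) (φ : ℝ) : sinC γ n (γ (φ : Circ)) = -(4 / (n:ℝ) ^ 2) * Real.sin (n * φ) := by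
  unfold sinC
  simp only [bdist_boundary hγ]
  rw [shift_integral φ (periodic_sin n)]
  have e : ∀ t : ℝ, |t| * Real.sin (n * (t + φ))
      = (|t| * Real.sin (n * t)) * Real.cos (n * φ) + (|t| * Real.cos (n * t)) * Real.sin (n * φ) := by
    intro t
    rw [mul_add, Real.sin_add]
    ring
  simp only [e]
  rw [intervalIntegral.integral_add, intervalIntegral.integral_mul_const,
    intervalIntegral.integral_mul_const, abs_cos_integral hn, abs_sin_integral]
  · ring
  · apply Continuous.intervalIntegrable; fun_prop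
  · apply Continuous.intervalIntegrable; fun_prop

theorem cos_sq_integral {n : ℕ} (hn : 0 < n) :
    ∫ t in (0:ℝ)..(2 * Real.pi), Real.cos (n * t) ^ 2 = Real.pi := by
  have hn0 : (n:ℝ) ≠ 0 := by positivity
  have hd : ∀ t : ℝ, HasDerivAt (fun t : ℝ => t / 2 + Real.sin (n * t) * Real.cos (n * t) / (2 * n))
      (Real.cos (n * t) ^ 2) t := by
    intro t
    have h1 : HasDerivAt (fun t : ℝ => (n:ℝ) * t) n t := by
      simpa using (hasDerivAt_id t).const_mul (n:ℝ)
    have h2 := (h1.sin.mul h1.cos).div_const (2 * (n:ℝ))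
    have h3 := (hasDerivAt_id t).div_const (2:ℝ)
    have h4 := h3.add h2
    refine HasDerivAt.congr_deriv h4 ?_
    have := Real.sin_sq_add_cos_sq (n * t)
    field_simp
    nlinarith
  rw [intervalIntegral.integral_eq_sub_of_hasDerivAt (fun t _ => hd t)]
  · have h1 : Real.sin (n * (2 * Real.pi)) = 0 := by
      have := Real.sin_nat_mul_pi (2 * n)
      rw [← this]; congr 1; push_cast; ring
    rw [h1]
    simp
  · apply Continuous.intervalIntegrable
    fun_prop

/-- The boundary integral of `A_n dB_n`. -/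
theorem boundary_value {γ : Circ → X} (hγ : ∀ s t, dist s t ≤ dist (γ s) (γ t)) {n : ℕ}
    (hn : Odd n) :
    (∫ t in (0:ℝ)..(2 * Real.pi),
      cosC γ n (γ (t : Circ)) * deriv (fun s : ℝ => sinC γ n (γ (s : Circ))) t)
      = 16 * Real.pi / (n:ℝ) ^ 3 := by
  have hn1 := hn.pos
  have hn0 : (n:ℝ) ≠ 0 := by positivity
  have e1 : (fun s : ℝ => sinC γ n (γ (s : Circ))) = fun s => -(4 / (n:ℝ) ^ 2) * Real.sin (n * s) :=
    funext fun s => sinC_boundary hγ hn s
  have e2 : ∀ t : ℝ, deriv (fun s : ℝ => -(4 / (n:ℝ) ^ 2) * Real.sin (n * s)) t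
      = -(4 / (n:ℝ) ^ 2) * (Real.cos (n * t) * n) := by
    intro t
    have h1 : HasDerivAt (fun t : ℝ => (n:ℝ) * t) n t := by
      simpa using (hasDerivAt_id t).const_mul (n:ℝ)
    exact (h1.sin.const_mul _).deriv
  rw [e1]
  simp only [e2, cosC_boundary hγ hn]
  have e3 : ∀ t : ℝ, -(4 / (n:ℝ) ^ 2) * Real.cos (n * t) * (-(4 / (n:ℝ) ^ 2) * (Real.cos (n * t) * n))
      = (16 / (n:ℝ) ^ 3) * Real.cos (n * t) ^ 2 := by
    intro t
    field_simp
    ring
  simp only [e3]
  rw [intervalIntegral.integral_const_mul, cos_sq_integral hn1]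
  ring

end Pool.Agent.H86.FA
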