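import Mathlib

/-!
# Oriented Riemannian fillings of the circle (definitions)

The circle of length `2 π` is filled by finite real combinations of Riemannian squares in a
metric space.  A compact oriented Riemannian surface `M` with boundary the circle is of this kind:
cut `M` into finitely many squares, take `X = M` with its path-length distance, the
parametrizations of the squares, the pulled back metric tensors and all multiplicities `1`.
-/

open MeasureTheory Set Filter Topology
open scoped NNReal ENNReal

noncomputable section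

namespace Pool.Agent.H86.FA

/-- The circle of length `2 π`; its distance is the arc length distance. -/
abbrev Circ : Type := AddCircle (2 * Real.pi)

instance : Fact (0 < 2 * Real.pi) := ⟨by positivity⟩

/-- A loop in a metric space `X` parametrized by the circle of length `2 π`, such that the
distance in `X` of two of its points is at least their distance on the circle. -/
def Nonshortcutting {X : Type*} [PseudoMetricSpace X] (γ : Circ → X) : Prop :=
  ∀ s t : Circ, dist s t ≤ dist (γ s) (γ t)

/-- The closed unit square. -/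
def unitSquare : Set (ℝ × ℝ) := Icc 0 1 ×ˢ Icc 0 1

/-- The integral of `f dg` along the boundary of the unit square, counterclockwise. -/
def bdy (f g : ℝ → ℝ → ℝ) : ℝ :=
  (∫ t in (0:ℝ)..1, f t 0 * deriv (fun s => g s 0) t)
  + (∫ t in (0:ℝ)..1, f 1 t * deriv (fun s => g 1 s) t)
  - (∫ t in (0:ℝ)..1, f t 1 * deriv (fun s => g s 1) t)
  - (∫ t in (0:ℝ)..1, f 0 t * deriv (fun s => g 0 s) t)

/-- A Riemannian square in a metric space `X`: a Lipschitz map `σ` from the unit square to `X` and
a measurable field `E dx² + 2 F dx dy + G dy²` of positive semidefinite quadratic forms on the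
square which bounds the speed of `σ`: at almost every point `p` of the square, for every vector
`v`, the distance from `σ p` to `σ (p + t v)` is at most `t (|v| + ε)` for all small `t > 0`. -/
structure RSquare (X : Type*) [PseudoMetricSpace X] where
  /-- the parametrization -/
  σ : ℝ × ℝ → X
  /-- the coefficient of `dx²` -/
  E : ℝ × ℝ → ℝ
  /-- the coefficient of `2 dx dy` -/
  F : ℝ × ℝ → ℝ
  /-- the coefficient of `dy²` -/
  G : ℝ × ℝ → ℝ
  lip : ∃ K : ℝ≥0, LipschitzOnWith K σ unitSquare
  measE : Measurable E
  measF : Measurable F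
  measG : Measurable G
  psd : ∀ p ∈ unitSquare, 0 ≤ E p ∧ 0 ≤ G p ∧ F p ^ 2 ≤ E p * G p
  speed : ∀ᵐ p : ℝ × ℝ, p ∈ unitSquare → ∀ v : ℝ × ℝ, ∀ ε > 0, ∀ᶠ t : ℝ in 𝓝[>] 0,
    dist (σ (p + t • v)) (σ p)
      ≤ t * (√(E p * v.1 ^ 2 + 2 * F p * v.1 * v.2 + G p * v.2 ^ 2) + ε)

namespace RSquare

variable {X : Type*} [PseudoMetricSpace X]

/-- The Riemannian area `∫∫ √(EG - F²) dx dy`. -/
def area (S : RSquare X) : ℝ≥0∞ :=
  ∫⁻ p in unitSquare, ENNReal.ofReal √(S.E p * S.G p - S.F p ^ 2)

/-- The integral of `f dg` along the boundary of the square. -/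
def boundaryIntegral (S : RSquare X) (f g : X → ℝ) : ℝ :=
  bdy (fun x y => f (S.σ (x, y))) (fun x y => g (S.σ (x, y)))

end RSquare

/-- The combination `∑ mᵢ Sᵢ` of Riemannian squares has boundary the loop `γ`: for all Lipschitz
functions `f, g` on `X` the integrals of `f dg` along `∑ mᵢ ∂Sᵢ` and along `γ` agree. -/
def Fills {X : Type*} [PseudoMetricSpace X] {ι : Type*} [Fintype ι] (m : ι → ℝ)
    (S : ι → RSquare X) (γ : Circ → X) : Prop :=
  ∀ f g : X → ℝ, (∃ K : ℝ≥0, LipschitzWith K f) → (∃ K : ℝ≥0, LipschitzWith K g) →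
    ∑ i, m i * (S i).boundaryIntegral f g
      = ∫ t in (0:ℝ)..(2 * Real.pi), f (γ (t : Circ)) * deriv (fun s : ℝ => g (γ (s : Circ))) t

end Pool.Agent.H86.FA
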