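import Pool.Agent.H86.FA.Bess

/-!
# The pointwise inequality
-/

open MeasureTheory Set Filter Topology

noncomputable section

namespace Pool.Agent.H86.FA

theorem alg_two {a b c x y x' y' : ℝ} (hc : 0 < c) (hD : 0 < a * c - b ^ 2) :
    2 * √(a * c - b ^ 2) * |x * y' - x' * y|
      ≤ (c * x ^ 2 - 2 * b * x * y + a * y ^ 2) + (c * x' ^ 2 - 2 * b * x' * y' + a * y' ^ 2) := by
  set D := a * c - b ^ 2 with hDdef
  set r := √D with hr
  have hr2 : r ^ 2 = D := Real.sq_sqrt hD.le
  have hr0 : 0 ≤ r := Real.sqrt_nonneg _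
  set U := c * x - b * y with hU
  set U' := c * x' - b * y' with hU'
  have e1 : c * (x * y' - x' * y) = U * y' - U' * y := by rw [hU, hU']; ring
  have e2 : c * ((c * x ^ 2 - 2 * b * x * y + a * y ^ 2) + (c * x' ^ 2 - 2 * b * x' * y' + a * y' ^ 2))
      = U ^ 2 + U' ^ 2 + r ^ 2 * (y ^ 2 + y' ^ 2) := by
    rw [hU, hU', hr2, hDdef]; ring
  have e3 : c * (2 * r * |x * y' - x' * y|) = 2 * r * |U * y' - U' * y| := by
    rw [← e1, abs_mul, abs_of_pos hc]; ring
  have h1 : |U * y' - U' * y| ≤ |U| * |y'| + |U'| * |y| := by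
    have := abs_sub (U * y') (U' * y)
    rwa [abs_mul, abs_mul] at this
  have h2 : 2 * r * (|U| * |y'| + |U'| * |y|) ≤ U ^ 2 + U' ^ 2 + r ^ 2 * (y ^ 2 + y' ^ 2) := by
    have s1 := sq_nonneg (|U| - r * |y'|)
    have s2 := sq_nonneg (|U'| - r * |y|)
    have a1 := sq_abs U
    have a2 := sq_abs U'
    have a3 := sq_abs y
    have a4 := sq_abs y'
    nlinarith
  have h3 : 2 * r * |U * y' - U' * y| ≤ 2 * r * (|U| * |y'| + |U'| * |y|) :=
    mul_le_mul_of_nonneg_left h1 (by positivity)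
  have h4 : c * (2 * r * |x * y' - x' * y|)
      ≤ c * ((c * x ^ 2 - 2 * b * x * y + a * y ^ 2) + (c * x' ^ 2 - 2 * b * x' * y' + a * y' ^ 2)) := by
    rw [e2, e3]; linarith
  exact le_of_mul_le_mul_left h4 hc

/-- A linear form dominated by a quadratic form: the dual inequality. -/
theorem dual_ineq {a b c p q : ℝ} (hD : b ^ 2 ≤ a * c)
    (h : ∀ v w : ℝ, (p * v + q * w) ^ 2 ≤ a * v ^ 2 + 2 * b * v * w + c * w ^ 2) :
    c * p ^ 2 - 2 * b * p * q + a * q ^ 2 ≤ a * c - b ^ 2 := by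
  have h1 := h (c * p - b * q) (a * q - b * p)
  set N := c * p ^ 2 - 2 * b * p * q + a * q ^ 2 with hN
  have e1 : p * (c * p - b * q) + q * (a * q - b * p) = N := by rw [hN]; ring
  have e2 : a * (c * p - b * q) ^ 2 + 2 * b * (c * p - b * q) * (a * q - b * p)
      + c * (a * q - b * p) ^ 2 = (a * c - b ^ 2) * N := by rw [hN]; ring
  rw [e1, e2] at h1
  by_contra hcon
  push Not at hcon
  have hN0 : 0 < N := by linarith
  nlinarith

variable {s : Finset ℕ} {p q : ℝ → ℝ} {a b c : ℝ}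

theorem sum_bound (hs : ∀ n ∈ s, 0 < n)
    (hp : AEStronglyMeasurable p (volume.restrict (Ioc 0 (2 * Real.pi))))
    (hq : AEStronglyMeasurable q (volume.restrict (Ioc 0 (2 * Real.pi)))) {C : ℝ}
    (hpb : ∀ᵐ t ∂(volume.restrict (Ioc 0 (2 * Real.pi))), |p t| ≤ C)
    (hqb : ∀ᵐ t ∂(volume.restrict (Ioc 0 (2 * Real.pi))), |q t| ≤ C)
    (hc : 0 < c) (hD : 0 < a * c - b ^ 2)
    (hN : ∀ᵐ t ∂(volume.restrict (Ioc 0 (2 * Real.pi))),
      c * p t ^ 2 - 2 * b * p t * q t + a * q t ^ 2 ≤ a * c - b ^ 2) :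
    ∑ n ∈ s, |(∫ t in (0:ℝ)..(2 * Real.pi), p t * Real.cos (n * t))
        * (∫ t in (0:ℝ)..(2 * Real.pi), q t * Real.sin (n * t))
        - (∫ t in (0:ℝ)..(2 * Real.pi), p t * Real.sin (n * t))
        * (∫ t in (0:ℝ)..(2 * Real.pi), q t * Real.cos (n * t))|
      ≤ Real.pi ^ 2 * √(a * c - b ^ 2) := by
  have h2pi : (0:ℝ) ≤ 2 * Real.pi := by positivity
  set μ := volume.restrict (Ioc 0 (2 * Real.pi)) with hμ
  set D := a * c - b ^ 2 with hDdef
  set r := √D with hr
  have hr0 : 0 < r := Real.sqrt_pos.mpr hD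
  have hr2 : r ^ 2 = D := Real.sq_sqrt hD.le
  have ip : Integrable p μ := Integrable.of_bound hp C (by simpa only [Real.norm_eq_abs] using hpb)
  have iq : Integrable q μ := Integrable.of_bound hq C (by simpa only [Real.norm_eq_abs] using hqb)
  -- the function `c p - b q`
  have hu : AEStronglyMeasurable (fun t => c * p t - b * q t) μ :=
    (hp.const_mul c).sub (hq.const_mul b)
  have hub : ∀ᵐ t ∂μ, |c * p t - b * q t| ≤ c * C + |b| * C := by
    filter_upwards [hpb, hqb] with t h1 h2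
    refine (abs_sub _ _).trans ?_
    rw [abs_mul, abs_mul, abs_of_pos hc]
    exact add_le_add (mul_le_mul_of_nonneg_left h1 hc.le)
      (mul_le_mul_of_nonneg_left h2 (abs_nonneg _))
  have B1 := bessel_trig s hs hu hub
  have B2 := bessel_trig s hs hq hqb
  have icos : ∀ {u : ℝ → ℝ}, Integrable u μ → ∀ n : ℕ,
      IntervalIntegrable (fun t => u t * Real.cos (n * t)) volume 0 (2 * Real.pi) := by
    intro u hu n
    rw [intervalIntegrable_iff_integrableOn_Ioc_of_le h2pi]
    have := hu.bdd_mul (c := 1) (f := fun t : ℝ => Real.cos (n * t))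
      (by apply Continuous.aestronglyMeasurable; fun_prop)
      (Filter.Eventually.of_forall fun t => Real.abs_cos_le_one _)
    exact this.congr (Filter.Eventually.of_forall fun t => mul_comm _ _)
  have isin : ∀ {u : ℝ → ℝ}, Integrable u μ → ∀ n : ℕ,
      IntervalIntegrable (fun t => u t * Real.sin (n * t)) volume 0 (2 * Real.pi) := by
    intro u hu n
    rw [intervalIntegrable_iff_integrableOn_Ioc_of_le h2pi]
    have := hu.bdd_mul (c := 1) (f := fun t : ℝ => Real.sin (n * t))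
      (by apply Continuous.aestronglyMeasurable; fun_prop)
      (Filter.Eventually.of_forall fun t => Real.abs_sin_le_one _)
    exact this.congr (Filter.Eventually.of_forall fun t => mul_comm _ _)
  have ec : ∀ n : ℕ, (∫ t in (0:ℝ)..(2 * Real.pi), (c * p t - b * q t) * Real.cos (n * t))
      = c * (∫ t in (0:ℝ)..(2 * Real.pi), p t * Real.cos (n * t))
        - b * ∫ t in (0:ℝ)..(2 * Real.pi), q t * Real.cos (n * t) := by
    intro n
    rw [← intervalIntegral.integral_const_mul, ← intervalIntegral.integral_const_mul,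
      ← intervalIntegral.integral_sub ((icos ip n).const_mul c) ((icos iq n).const_mul b)]
    apply intervalIntegral.integral_congr
    intro t _
    simp only
    ring
  have es : ∀ n : ℕ, (∫ t in (0:ℝ)..(2 * Real.pi), (c * p t - b * q t) * Real.sin (n * t))
      = c * (∫ t in (0:ℝ)..(2 * Real.pi), p t * Real.sin (n * t))
        - b * ∫ t in (0:ℝ)..(2 * Real.pi), q t * Real.sin (n * t) := by
    intro n
    rw [← intervalIntegral.integral_const_mul, ← intervalIntegral.integral_const_mul,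
      ← intervalIntegral.integral_sub ((isin ip n).const_mul c) ((isin iq n).const_mul b)]
    apply intervalIntegral.integral_congr
    intro t _
    simp only
    ring
  have iu : Integrable (fun t => (c * p t - b * q t) ^ 2) μ := by
    apply Integrable.of_bound (hu.pow 2) ((c * C + |b| * C) ^ 2)
    filter_upwards [hub] with t h
    change ‖(c * p t - b * q t) ^ 2‖ ≤ _
    rw [Real.norm_eq_abs, abs_pow]
    exact pow_le_pow_left₀ (abs_nonneg _) h 2
  have iqq : Integrable (fun t => q t ^ 2) μ := by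
    apply Integrable.of_bound (hq.pow 2) (C ^ 2)
    filter_upwards [hqb] with t h
    change ‖q t ^ 2‖ ≤ _
    rw [Real.norm_eq_abs, abs_pow]
    exact pow_le_pow_left₀ (abs_nonneg _) h 2
  -- the total energy
  have hE : (∫ t in (0:ℝ)..(2 * Real.pi), (c * p t - b * q t) ^ 2)
      + D * (∫ t in (0:ℝ)..(2 * Real.pi), q t ^ 2) ≤ c * (2 * Real.pi * D) := by
    simp only [intervalIntegral.integral_of_le h2pi]
    rw [← integral_const_mul, ← integral_add iu (iqq.const_mul _)]
    have : ∫ t, ((c * p t - b * q t) ^ 2 + D * q t ^ 2) ∂μ ≤ ∫ _t, c * D ∂μ := by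
      apply integral_mono_ae (iu.add (iqq.const_mul _)) (integrable_const _)
      filter_upwards [hN] with t ht
      have : (c * p t - b * q t) ^ 2 + D * q t ^ 2
          = c * (c * p t ^ 2 - 2 * b * p t * q t + a * q t ^ 2) := by
        rw [hDdef]; ring
      change (c * p t - b * q t) ^ 2 + D * q t ^ 2 ≤ c * D
      rw [this]
      exact mul_le_mul_of_nonneg_left ht hc.le
    refine this.trans (le_of_eq ?_)
    rw [integral_const, hμ]
    simp only [smul_eq_mul]
    rw [measureReal_restrict_apply MeasurableSet.univ, univ_inter, Real.volume_real_Ioc_of_le h2pi]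
    ring
  -- sum of the individual bounds
  set Pc : ℕ → ℝ := fun n => ∫ t in (0:ℝ)..(2 * Real.pi), p t * Real.cos (n * t) with hPc
  set Ps : ℕ → ℝ := fun n => ∫ t in (0:ℝ)..(2 * Real.pi), p t * Real.sin (n * t) with hPs
  set Qc : ℕ → ℝ := fun n => ∫ t in (0:ℝ)..(2 * Real.pi), q t * Real.cos (n * t) with hQc
  set Qs : ℕ → ℝ := fun n => ∫ t in (0:ℝ)..(2 * Real.pi), q t * Real.sin (n * t) with hQs
  have each : ∀ n ∈ s, c * (2 * r * |Pc n * Qs n - Ps n * Qc n|)
      ≤ (c * Pc n - b * Qc n) ^ 2 + (c * Ps n - b * Qs n) ^ 2 + D * (Qc n ^ 2 + Qs n ^ 2) := by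
    intro n _
    have h1 := alg_two (x := Pc n) (y := Qc n) (x' := Ps n) (y' := Qs n) hc hD
    have h2 := mul_le_mul_of_nonneg_left h1 hc.le
    refine h2.trans (le_of_eq ?_)
    rw [hDdef]; ring
  have tot : c * (2 * r) * ∑ n ∈ s, |Pc n * Qs n - Ps n * Qc n|
      ≤ Real.pi * (c * (2 * Real.pi * D)) := by
    calc c * (2 * r) * ∑ n ∈ s, |Pc n * Qs n - Ps n * Qc n|
        = ∑ n ∈ s, c * (2 * r * |Pc n * Qs n - Ps n * Qc n|) := by
          rw [Finset.mul_sum]; exact Finset.sum_congr rfl fun n _ => by ring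
      _ ≤ ∑ n ∈ s, ((c * Pc n - b * Qc n) ^ 2 + (c * Ps n - b * Qs n) ^ 2
            + D * (Qc n ^ 2 + Qs n ^ 2)) := Finset.sum_le_sum each
      _ = (∑ n ∈ s, ((c * Pc n - b * Qc n) ^ 2 + (c * Ps n - b * Qs n) ^ 2))
            + D * ∑ n ∈ s, (Qc n ^ 2 + Qs n ^ 2) := by
          rw [Finset.sum_add_distrib, Finset.mul_sum]
      _ ≤ Real.pi * (∫ t in (0:ℝ)..(2 * Real.pi), (c * p t - b * q t) ^ 2)
            + D * (Real.pi * ∫ t in (0:ℝ)..(2 * Real.pi), q t ^ 2) := by
          apply add_le_add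
          · simpa only [ec, es] using B1
          · exact mul_le_mul_of_nonneg_left B2 hD.le
      _ = Real.pi * ((∫ t in (0:ℝ)..(2 * Real.pi), (c * p t - b * q t) ^ 2)
            + D * ∫ t in (0:ℝ)..(2 * Real.pi), q t ^ 2) := by ring
      _ ≤ _ := mul_le_mul_of_nonneg_left hE Real.pi_pos.le
  have fin : c * (2 * r) * ∑ n ∈ s, |Pc n * Qs n - Ps n * Qc n|
      ≤ c * (2 * r) * (Real.pi ^ 2 * r) := by
    refine tot.trans (le_of_eq ?_)
    rw [← hr2]; ring
  exact le_of_mul_le_mul_left fin (by positivity)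

end Pool.Agent.H86.FA
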