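import Pool.Agent.H86.FA.Trace

open MeasureTheory Set Filter Topology

noncomputable section

namespace Pool.Agent.H86.FA

/-- The Jacobian determinant of the pair `(f, g)` on the plane. -/
def jac (f g : ℝ × ℝ → ℝ) (p : ℝ × ℝ) : ℝ :=
  fderiv ℝ f p (1, 0) * fderiv ℝ g p (0, 1) - fderiv ℝ f p (0, 1) * fderiv ℝ g p (1, 0)

theorem Lip2.lipschitz {L : ℝ} {f : ℝ → ℝ → ℝ} (hf : Lip2 L f) :
    LipschitzWith (Real.toNNReal (2 * L)) (fun p : ℝ × ℝ => f p.1 p.2) := by
  apply LipschitzWith.of_dist_le_mul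
  intro p q
  rw [Real.dist_eq]
  refine (hf.2 _ _ _ _).trans ?_
  rw [Real.coe_toNNReal _ (by linarith [hf.1])]
  have h1 : |p.1 - q.1| ≤ dist p q := by
    rw [← Real.dist_eq]; exact (Prod.dist_eq (x := p) (y := q)) ▸ le_max_left _ _
  have h2 : |p.2 - q.2| ≤ dist p q := by
    rw [← Real.dist_eq]; exact (Prod.dist_eq (x := p) (y := q)) ▸ le_max_right _ _
  nlinarith [hf.1]

theorem slope_lim {f : ℝ × ℝ → ℝ} {p : ℝ × ℝ} (hf : DifferentiableAt ℝ f p) (v : ℝ × ℝ) :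
    Tendsto (fun h : ℝ => (f (p + h • v) - f p) / h) (𝓝[>] 0) (𝓝 (fderiv ℝ f p v)) := by
  have h1 := hf.hasFDerivAt.hasLineDerivAt v
  have h2 := h1.tendsto_slope_zero_right
  refine h2.congr (fun h => ?_)
  rw [smul_eq_mul, div_eq_inv_mul]

theorem disc_lim {f g : ℝ → ℝ → ℝ} {p : ℝ × ℝ}
    (hf : DifferentiableAt ℝ (fun q : ℝ × ℝ => f q.1 q.2) p)
    (hg : DifferentiableAt ℝ (fun q : ℝ × ℝ => g q.1 q.2) p) :
    Tendsto (fun h => disc f g h p.1 p.2) (𝓝[>] 0)
      (𝓝 (jac (fun q : ℝ × ℝ => f q.1 q.2) (fun q : ℝ × ℝ => g q.1 q.2) p)) := by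
  have f1 := slope_lim hf (1, 0)
  have f2 := slope_lim hf (0, 1)
  have g1 := slope_lim hg (1, 0)
  have g2 := slope_lim hg (0, 1)
  have g3 := slope_lim hg (1, 1)
  have e : fderiv ℝ (fun q : ℝ × ℝ => g q.1 q.2) p (1, 1)
      = fderiv ℝ (fun q : ℝ × ℝ => g q.1 q.2) p (1, 0)
        + fderiv ℝ (fun q : ℝ × ℝ => g q.1 q.2) p (0, 1) := by
    rw [← map_add]; simp
  have := (f1.mul (g3.sub g1)).sub (f2.mul (g3.sub g2))
  convert this using 2
  · rename_i h
    unfold disc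
    simp only [Prod.fst_add, Prod.snd_add, Prod.smul_fst, Prod.smul_snd, smul_eq_mul, mul_one,
      mul_zero, add_zero]
    ring
  · unfold jac
    rw [e]
    ring

theorem disc_bound {L : ℝ} {f g : ℝ → ℝ → ℝ} (hf : Lip2 L f) (hg : Lip2 L g) {h : ℝ}
    (h0 : 0 < h) (x y : ℝ) : |disc f g h x y| ≤ 2 * L ^ 2 := by
  have hL := hf.1
  have q : ∀ a b : ℝ, |a - b| ≤ L * h → |(a - b) / h| ≤ L := by
    intro a b hab
    rw [abs_div, abs_of_pos h0, div_le_iff₀ h0]; exact hab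
  have e1 : ∀ z : ℝ, |z + h - z| = h := fun z => by rw [add_sub_cancel_left, abs_of_pos h0]
  have a1 : |(f (x + h) y - f x y) / h| ≤ L := by
    apply q; have := hf.lip_fst (x + h) x y; rwa [e1] at this
  have a2 : |(f x (y + h) - f x y) / h| ≤ L := by
    apply q; have := hf.lip_snd x (y + h) y; rwa [e1] at this
  have b1 : |(g (x + h) (y + h) - g (x + h) y) / h| ≤ L := by
    apply q; have := hg.lip_snd (x + h) (y + h) y; rwa [e1] at this
  have b2 : |(g (x + h) (y + h) - g x (y + h)) / h| ≤ L := by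
    apply q; have := hg.lip_fst (x + h) x (y + h); rwa [e1] at this
  unfold disc
  refine (abs_sub _ _).trans ?_
  rw [abs_mul, abs_mul]
  have m1 := mul_le_mul a1 b1 (abs_nonneg _) hL
  have m2 := mul_le_mul a2 b2 (abs_nonneg _) hL
  nlinarith

/-- **Stokes' formula** on the unit square for Lipschitz functions. -/
theorem stokes {L : ℝ} {f g : ℝ → ℝ → ℝ} (hf : Lip2 L f) (hg : Lip2 L g) :
    (∫ p in Ioc (0:ℝ) 1 ×ˢ Ioc (0:ℝ) 1,
      jac (fun q : ℝ × ℝ => f q.1 q.2) (fun q : ℝ × ℝ => g q.1 q.2) p) = bdy f g := by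
  have hfin : volume (Ioc (0:ℝ) 1 ×ˢ Ioc (0:ℝ) 1 : Set (ℝ × ℝ)) ≠ ⊤ := by
    rw [Measure.volume_eq_prod, Measure.prod_prod]
    simp
  have e : ∀ h, (∫ x in (0:ℝ)..1, ∫ y in (0:ℝ)..1, disc f g h x y)
      = ∫ p in Ioc (0:ℝ) 1 ×ˢ Ioc (0:ℝ) 1, disc f g h p.1 p.2 := by
    intro h
    have hc : IsCompact (Icc (0:ℝ) 1 ×ˢ Icc (0:ℝ) 1) := isCompact_Icc.prod isCompact_Icc
    have hi : IntegrableOn (fun p : ℝ × ℝ => disc f g h p.1 p.2) (Ioc (0:ℝ) 1 ×ˢ Ioc (0:ℝ) 1) :=
      (((disc_continuous hf hg h).continuousOn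
        (s := Icc (0:ℝ) 1 ×ˢ Icc (0:ℝ) 1)).integrableOn_compact (μ := volume) hc).mono_set
          (prod_mono Ioc_subset_Icc_self Ioc_subset_Icc_self)
    rw [Measure.volume_eq_prod, setIntegral_prod _ (by rwa [← Measure.volume_eq_prod])]
    rw [intervalIntegral.integral_of_le zero_le_one]
    simp only [intervalIntegral.integral_of_le zero_le_one]
  have t1 := disc_tendsto hf hg
  simp only [e] at t1
  refine tendsto_nhds_unique ?_ t1
  apply tendsto_integral_filter_of_dominated_convergence (fun _ => 2 * L ^ 2)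
  · filter_upwards with h
    exact (disc_continuous hf hg h).aestronglyMeasurable
  · filter_upwards [self_mem_nhdsWithin] with h hh
    filter_upwards with p
    exact disc_bound hf hg hh p.1 p.2
  · exact integrableOn_const hfin
  · have df := hf.lipschitz.ae_differentiableAt (μ := volume)
    have dg := hg.lipschitz.ae_differentiableAt (μ := volume)
    filter_upwards [ae_restrict_of_ae df, ae_restrict_of_ae dg] with p h1 h2
    exact disc_lim h1 h2

end Pool.Agent.H86.FA
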