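import Pool.Agent.H86.FA.Circ
import Pool.Agent.H86.FA.Square
import Pool.Agent.H86.FA.Pt

/-!
# Analysis on one square
-/

open MeasureTheory Set Filter Topology
open scoped NNReal ENNReal

noncomputable section

namespace Pool.Agent.H86.FA

variable {X : Type*} [PseudoMetricSpace X]

/-! ### Clamping to the square -/

/-- The nearest point map to the unit square. -/
def clamp (p : ℝ × ℝ) : ℝ × ℝ := (max 0 (min 1 p.1), max 0 (min 1 p.2))

theorem clamp_mem (p : ℝ × ℝ) : clamp p ∈ unitSquare := by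
  refine ⟨⟨le_max_left _ _, max_le zero_le_one (min_le_left _ _)⟩,
    ⟨le_max_left _ _, max_le zero_le_one (min_le_left _ _)⟩⟩

theorem clamp_eq {p : ℝ × ℝ} (hp : p ∈ unitSquare) : clamp p = p := by
  obtain ⟨⟨h1, h2⟩, ⟨h3, h4⟩⟩ := hp
  unfold clamp
  rw [min_eq_right h2, max_eq_right h1, min_eq_right h4, max_eq_right h3]

theorem clamp1_lip (x y : ℝ) : |max 0 (min 1 x) - max 0 (min 1 y)| ≤ |x - y| := by
  refine (abs_max_sub_max_le_max 0 (min 1 x) 0 (min 1 y)).trans ?_
  refine max_le (by simp) ?_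
  refine (abs_min_sub_min_le_max 1 x 1 y).trans ?_
  exact max_le (by simp) le_rfl

theorem dist_clamp (p q : ℝ × ℝ) : dist (clamp p) (clamp q) ≤ dist p q := by
  rw [Prod.dist_eq, Prod.dist_eq, Real.dist_eq, Real.dist_eq, Real.dist_eq, Real.dist_eq]
  exact max_le_max (clamp1_lip _ _) (clamp1_lip _ _)

/-- The extended parametrization. -/
def RSquare.τ (S : RSquare X) (p : ℝ × ℝ) : X := S.σ (clamp p)

theorem RSquare.τ_eq (S : RSquare X) {p : ℝ × ℝ} (hp : p ∈ unitSquare) : S.τ p = S.σ p := by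
  unfold RSquare.τ; rw [clamp_eq hp]

theorem RSquare.τ_lip (S : RSquare X) : ∃ K : ℝ, 0 ≤ K ∧ ∀ p q, dist (S.τ p) (S.τ q) ≤ K * dist p q := by
  obtain ⟨K, hK⟩ := S.lip
  refine ⟨K, K.2, fun p q => ?_⟩
  exact (hK.dist_le_mul _ (clamp_mem p) _ (clamp_mem q)).trans
    (mul_le_mul_of_nonneg_left (dist_clamp p q) K.2)

theorem dist_le_sum (p q : ℝ × ℝ) : dist p q ≤ |p.1 - q.1| + |p.2 - q.2| := by
  rw [Prod.dist_eq, Real.dist_eq, Real.dist_eq]
  exact max_le (le_add_of_nonneg_right (abs_nonneg _)) (le_add_of_nonneg_left (abs_nonneg _))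

theorem lip2_comp (S : RSquare X) {f : X → ℝ} {K : ℝ≥0} (hf : LipschitzWith K f) :
    ∃ L, Lip2 L (fun x y => f (S.τ (x, y))) := by
  obtain ⟨M, hM0, hM⟩ := S.τ_lip
  refine ⟨K * M, by positivity, fun x y x' y' => ?_⟩
  have h1 := hf.dist_le_mul (S.τ (x, y)) (S.τ (x', y'))
  rw [Real.dist_eq] at h1
  refine h1.trans ?_
  rw [mul_assoc]
  apply mul_le_mul_of_nonneg_left _ K.2
  exact (hM _ _).trans (mul_le_mul_of_nonneg_left (dist_le_sum _ _) hM0)

theorem Lip2.mono {L L' : ℝ} {f : ℝ → ℝ → ℝ} (hf : Lip2 L f) (h : L ≤ L') : Lip2 L' f := by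
  refine ⟨hf.1.trans h, fun x y x' y' => (hf.2 x y x' y').trans ?_⟩
  exact mul_le_mul_of_nonneg_right h (by positivity)

/-- Two functions which agree on the square have the same boundary integral. -/
theorem bdy_congr {f f' g g' : ℝ → ℝ → ℝ} (hf : ∀ x ∈ Icc (0:ℝ) 1, ∀ y ∈ Icc (0:ℝ) 1, f x y = f' x y)
    (hg : ∀ x ∈ Icc (0:ℝ) 1, ∀ y ∈ Icc (0:ℝ) 1, g x y = g' x y) : bdy f g = bdy f' g' := by
  have z : (0:ℝ) ∈ Icc (0:ℝ) 1 := ⟨le_rfl, zero_le_one⟩
  have o : (1:ℝ) ∈ Icc (0:ℝ) 1 := ⟨zero_le_one, le_rfl⟩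
  have key : ∀ u u' v v' : ℝ → ℝ, (∀ t ∈ Icc (0:ℝ) 1, u t = u' t) →
      (∀ t ∈ Icc (0:ℝ) 1, v t = v' t) →
      (∫ t in (0:ℝ)..1, u t * deriv (fun s => v s) t)
        = ∫ t in (0:ℝ)..1, u' t * deriv (fun s => v' s) t := by
    intro u u' v v' hu hv
    rw [intervalIntegral.integral_of_le zero_le_one, intervalIntegral.integral_of_le zero_le_one,
      integral_Ioc_eq_integral_Ioo, integral_Ioc_eq_integral_Ioo]
    apply setIntegral_congr_fun measurableSet_Ioo
    intro t ht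
    simp only
    rw [hu t (Ioo_subset_Icc_self ht)]
    congr 1
    apply Filter.EventuallyEq.deriv_eq
    filter_upwards [isOpen_Ioo.mem_nhds ht] with s hs
    exact hv s (Ioo_subset_Icc_self hs)
  unfold bdy
  rw [key (fun t => f t 0) (fun t => f' t 0) (fun s => g s 0) (fun s => g' s 0)
      (fun t ht => hf t ht 0 z) (fun t ht => hg t ht 0 z),
    key (fun t => f 1 t) (fun t => f' 1 t) (fun s => g 1 s) (fun s => g' 1 s)
      (fun t ht => hf 1 o t ht) (fun t ht => hg 1 o t ht),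
    key (fun t => f t 1) (fun t => f' t 1) (fun s => g s 1) (fun s => g' s 1)
      (fun t ht => hf t ht 1 o) (fun t ht => hg t ht 1 o),
    key (fun t => f 0 t) (fun t => f' 0 t) (fun s => g 0 s) (fun s => g' 0 s)
      (fun t ht => hf 0 z t ht) (fun t ht => hg 0 z t ht)]

/-- Stokes' formula for a Riemannian square. -/
theorem RSquare.stokes (S : RSquare X) {f g : X → ℝ} {K K' : ℝ≥0} (hf : LipschitzWith K f)
    (hg : LipschitzWith K' g) :
    S.boundaryIntegral f g
      = ∫ p in Ioc (0:ℝ) 1 ×ˢ Ioc (0:ℝ) 1, jac (fun q => f (S.τ q)) (fun q => g (S.τ q)) p := by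
  obtain ⟨L, hL⟩ := lip2_comp S hf
  obtain ⟨L', hL'⟩ := lip2_comp S hg
  have := FA.stokes (hL.mono (le_max_left L L')) (hL'.mono (le_max_right L L'))
  change _ = ∫ p in Ioc (0:ℝ) 1 ×ˢ Ioc (0:ℝ) 1,
    jac (fun q : ℝ × ℝ => f (S.τ (q.1, q.2))) (fun q : ℝ × ℝ => g (S.τ (q.1, q.2))) p
  rw [this]
  apply bdy_congr
  · intro x hx y hy
    rw [S.τ_eq ⟨hx, hy⟩]
  · intro x hx y hy
    rw [S.τ_eq ⟨hx, hy⟩]

/-! ### The distance functions on the square -/

variable {γ : Circ → X}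

/-- The boundary distance functions on the plane. -/
def gd (γ : Circ → X) (S : RSquare X) (t : ℝ) (p : ℝ × ℝ) : ℝ := bdist γ (t : Circ) (S.τ p)

theorem dist_circ_le (s t : ℝ) : dist (s : Circ) (t : Circ) ≤ |s - t| := by
  rw [dist_eq_norm, ← AddCircle.coe_sub, ← Real.norm_eq_abs]
  exact QuotientAddGroup.norm_mk_le_norm

theorem gd_continuous (γ : Circ → X) (S : RSquare X) : Continuous (gd γ S).uncurry := by
  obtain ⟨K, hK0, hK⟩ := S.τ_lip
  have : LipschitzWith (Real.toNNReal (1 + K)) (gd γ S).uncurry := by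
    apply LipschitzWith.of_dist_le_mul
    rintro ⟨s, p⟩ ⟨t, q⟩
    rw [Real.coe_toNNReal _ (by positivity), Real.dist_eq]
    change |bdist γ (s : Circ) (S.τ p) - bdist γ (t : Circ) (S.τ q)| ≤ _
    have h1 := bdist_lip_left γ (s : Circ) (t : Circ) (S.τ p)
    have h2 := bdist_lip_right γ (t : Circ) (S.τ p) (S.τ q)
    have h3 := dist_circ_le s t
    have h4 := hK p q
    have h5 : |s - t| ≤ dist (s, p) (t, q) := by
      rw [Prod.dist_eq, Real.dist_eq]; exact le_max_left _ _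
    have h6 : dist p q ≤ dist (s, p) (t, q) := by
      rw [Prod.dist_eq]; exact le_max_right _ _
    have h7 := abs_sub_le (bdist γ (s : Circ) (S.τ p)) (bdist γ (t : Circ) (S.τ p))
      (bdist γ (t : Circ) (S.τ q))
    have h8 : K * dist p q ≤ K * dist (s, p) (t, q) := mul_le_mul_of_nonneg_left h6 hK0
    linarith
  exact this.continuous

theorem bdist_cont (γ : Circ → X) (x : X) : Continuous (fun t : ℝ => bdist γ (t : Circ) x) := by
  have : LipschitzWith 1 (fun t : ℝ => bdist γ (t : Circ) x) := by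
    apply LipschitzWith.of_dist_le_mul
    intro s t
    rw [NNReal.coe_one, one_mul, Real.dist_eq, Real.dist_eq]
    exact (bdist_lip_left γ _ _ x).trans (dist_circ_le s t)
  exact this.continuous

theorem gd_lip (γ : Circ → X) (S : RSquare X) : ∃ K : ℝ≥0, ∀ t, LipschitzWith K (gd γ S t) := by
  obtain ⟨K, hK0, hK⟩ := S.τ_lip
  refine ⟨Real.toNNReal K, fun t => ?_⟩
  apply LipschitzWith.of_dist_le_mul
  intro p q
  rw [Real.coe_toNNReal _ hK0, Real.dist_eq]
  exact (bdist_lip_right γ _ _ _).trans (hK p q)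

theorem coef_lip (γ : Circ → X) {u : ℝ → ℝ} (hu : Continuous u) (hub : ∀ t, |u t| ≤ 1) :
    ∃ K : ℝ≥0, LipschitzWith K
      (fun x : X => ∫ t in (0:ℝ)..(2 * Real.pi), bdist γ (t : Circ) x * u t) := by
  refine ⟨Real.toNNReal (2 * Real.pi), ?_⟩
  apply LipschitzWith.of_dist_le_mul
  intro x y
  have hc : ∀ x : X, IntervalIntegrable (fun t : ℝ => bdist γ (t : Circ) x * u t) volume 0
      (2 * Real.pi) := by
    intro x
    apply Continuous.intervalIntegrable
    exact (bdist_cont γ x).mul hu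
  rw [Real.coe_toNNReal _ (by positivity), Real.dist_eq, ← intervalIntegral.integral_sub (hc x) (hc y)]
  have := intervalIntegral.norm_integral_le_of_norm_le_const (a := (0:ℝ)) (b := 2 * Real.pi)
    (C := dist x y) (f := fun t : ℝ => bdist γ (t : Circ) x * u t - bdist γ (t : Circ) y * u t) ?_
  · rw [Real.norm_eq_abs, sub_zero, abs_of_pos (by positivity : (0:ℝ) < 2 * Real.pi)] at this
    exact this.trans (le_of_eq (mul_comm _ _))
  · intro t _
    rw [← sub_mul, Real.norm_eq_abs, abs_mul]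
    calc _ ≤ dist x y * 1 :=
          mul_le_mul (bdist_lip_right γ _ _ _) (hub t) (abs_nonneg _) dist_nonneg
      _ = _ := mul_one _

theorem ae_diff (γ : Circ → X) (S : RSquare X) :
    ∀ᵐ p : ℝ × ℝ, ∀ᵐ t : ℝ, DifferentiableAt ℝ (gd γ S t) p := by
  obtain ⟨K, hK⟩ := gd_lip γ S
  have h1 : ∀ᵐ t : ℝ, ∀ᵐ p : ℝ × ℝ, DifferentiableAt ℝ (gd γ S t) p :=
    Eventually.of_forall fun t => (hK t).ae_differentiableAt
  exact (Measure.ae_ae_comm (μ := (volume : Measure ℝ)) (ν := (volume : Measure (ℝ × ℝ)))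
    (measurableSet_of_differentiableAt_with_param ℝ (gd_continuous γ S))).mp h1

theorem fderiv_meas (γ : Circ → X) (S : RSquare X) (p v : ℝ × ℝ) :
    Measurable (fun t : ℝ => fderiv ℝ (gd γ S t) p v) :=
  (measurable_fderiv_apply_const_with_param ℝ (gd_continuous γ S) v).comp
    (f := fun t : ℝ => (t, p)) (by fun_prop)

/-- Derivative of a Fourier coefficient. -/
theorem coef_fderiv (γ : Circ → X) (S : RSquare X) {u : ℝ → ℝ} (hu : Continuous u)
    (hub : ∀ t, |u t| ≤ 1) {p : ℝ × ℝ} (hp : ∀ᵐ t : ℝ, DifferentiableAt ℝ (gd γ S t) p)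
    (v : ℝ × ℝ) :
    fderiv ℝ (fun q => ∫ t in (0:ℝ)..(2 * Real.pi), bdist γ (t : Circ) (S.τ q) * u t) p v
      = ∫ t in (0:ℝ)..(2 * Real.pi), fderiv ℝ (gd γ S t) p v * u t := by
  obtain ⟨K, hK⟩ := gd_lip γ S
  have h2pi : (0:ℝ) ≤ 2 * Real.pi := by positivity
  set μ := volume.restrict (Ioc 0 (2 * Real.pi)) with hμ
  have hm : Measurable (fun t : ℝ => fderiv ℝ (gd γ S t) p) :=
    (measurable_fderiv_with_param ℝ (gd_continuous γ S)).comp
      (f := fun t : ℝ => (t, p)) (by fun_prop)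
  have key := hasFDerivAt_integral_of_dominated_loc_of_lip (μ := μ) (𝕜 := ℝ) (x₀ := p)
    (F := fun q t => gd γ S t q * u t) (F' := fun t => u t • fderiv ℝ (gd γ S t) p)
    (bound := fun _ => (K:ℝ)) (s := univ) univ_mem ?_ ?_ ?_ ?_ ?_ ?_
  · have e : (fun q => ∫ t in (0:ℝ)..(2 * Real.pi), bdist γ (t : Circ) (S.τ q) * u t)
        = fun q => ∫ t, gd γ S t q * u t ∂μ := by
      funext q
      rw [intervalIntegral.integral_of_le h2pi]
      rfl
    rw [e, key.2.fderiv, ContinuousLinearMap.integral_apply key.1,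
      intervalIntegral.integral_of_le h2pi]
    apply integral_congr_ae
    filter_upwards with t
    simp only [_root_.smul_apply, smul_eq_mul]
    ring
  · refine Eventually.of_forall fun q => ?_
    apply Continuous.aestronglyMeasurable
    exact ((gd_continuous γ S).comp (Continuous.prodMk_left q)).mul hu
  · have hc : Continuous (fun t => gd γ S t p * u t) :=
      ((gd_continuous γ S).comp (Continuous.prodMk_left p)).mul hu
    exact (hc.integrableOn_Icc (a := 0) (b := 2 * Real.pi)).mono_set Ioc_subset_Icc_self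
  · exact (hu.measurable.smul hm).aestronglyMeasurable
  · refine Eventually.of_forall fun t => ?_
    rw [lipschitzOnWith_univ]
    apply LipschitzWith.of_dist_le_mul
    intro q q'
    have := (hK t).dist_le_mul q q'
    rw [Real.dist_eq] at this ⊢
    rw [← sub_mul, abs_mul]
    have hk : ((Real.nnabs (K:ℝ) : ℝ≥0) : ℝ) = K := by
      rw [Real.coe_nnabs]; exact abs_of_nonneg K.2
    rw [hk]
    calc _ ≤ |gd γ S t q - gd γ S t q'| * 1 := mul_le_mul_of_nonneg_left (hub t) (abs_nonneg _)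
      _ ≤ _ := by rw [mul_one]; exact this
  · exact integrable_const _
  · have := ae_restrict_of_ae (s := Ioc 0 (2 * Real.pi)) hp
    filter_upwards [this] with t ht
    have h1 := ht.hasFDerivAt.mul_const (u t)
    exact h1

end Pool.Agent.H86.FA
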