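import Pool.Agent.H86.FA.Bound

/-!
# The area bound
-/

open MeasureTheory Set Filter Topology
open scoped NNReal ENNReal

noncomputable section

namespace Pool.Agent.H86.FA

variable {X : Type*} [PseudoMetricSpace X]

theorem partial_bound {γ : Circ → X} (hγ : Nonshortcutting γ) {ι : Type*} [Fintype ι] {m : ι → ℝ}
    {S : ι → RSquare X} (h : Fills m S γ) (s : Finset ℕ) (hs : ∀ n ∈ s, Odd n) :
    ENNReal.ofReal (16 / Real.pi * ∑ n ∈ s, 1 / (n:ℝ) ^ 3)
      ≤ ∑ i, ENNReal.ofReal |m i| * (S i).area := by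
  have hpos : ∀ n ∈ s, 0 < n := fun n hn => (hs n hn).pos
  have hval : ∀ n ∈ s, 16 * Real.pi / (n:ℝ) ^ 3
      = ∑ i, m i * (S i).boundaryIntegral (cosC γ n) (sinC γ n) := by
    intro n hn
    rw [h (cosC γ n) (sinC γ n)
      (coef_lip γ (u := fun t : ℝ => Real.cos (n * t)) (by fun_prop)
        (fun t => Real.abs_cos_le_one _))
      (coef_lip γ (u := fun t : ℝ => Real.sin (n * t)) (by fun_prop)
        (fun t => Real.abs_sin_le_one _))]
    exact (boundary_value hγ (hs n hn)).symm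
  have h1 : ∑ n ∈ s, 16 * Real.pi / (n:ℝ) ^ 3
      ≤ ∑ i, |m i| * ∑ n ∈ s, |(S i).boundaryIntegral (cosC γ n) (sinC γ n)| := by
    rw [Finset.sum_congr rfl hval, Finset.sum_comm]
    apply Finset.sum_le_sum
    intro i _
    rw [Finset.mul_sum]
    apply Finset.sum_le_sum
    intro n _
    rw [← abs_mul]
    exact le_abs_self _
  have h2 : ENNReal.ofReal (∑ n ∈ s, 16 * Real.pi / (n:ℝ) ^ 3)
      ≤ ENNReal.ofReal (Real.pi ^ 2) * ∑ i, ENNReal.ofReal |m i| * (S i).area := by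
    refine (ENNReal.ofReal_le_ofReal h1).trans ?_
    rw [ENNReal.ofReal_sum_of_nonneg (fun i _ => by positivity), Finset.mul_sum]
    apply Finset.sum_le_sum
    intro i _
    rw [ENNReal.ofReal_mul (abs_nonneg _), mul_left_comm]
    exact mul_le_mul_right (square_bound γ (S i) s hpos) _
  have e1 : (∑ n ∈ s, 16 * Real.pi / (n:ℝ) ^ 3)
      = Real.pi ^ 2 * (16 / Real.pi * ∑ n ∈ s, 1 / (n:ℝ) ^ 3) := by
    rw [Finset.mul_sum, Finset.mul_sum]
    apply Finset.sum_congr rfl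
    intro n _
    field_simp
  rw [e1, ENNReal.ofReal_mul (by positivity)] at h2
  rwa [ENNReal.mul_le_mul_iff_right] at h2
  · exact (ENNReal.ofReal_pos.mpr (by positivity)).ne'
  · exact ENNReal.ofReal_ne_top

theorem summable_cubes : Summable (fun n : ℕ => 1 / ((n:ℝ) + 1) ^ 3) := by
  have h := (Real.summable_one_div_nat_pow (p := 3)).mpr (by norm_num)
  have := (summable_nat_add_iff 1).mpr h
  simpa using this

theorem odd_cubes :
    HasSum (fun k : ℕ => 1 / (((2 * k + 1 : ℕ) : ℝ)) ^ 3) (7 / 8 * ∑' n : ℕ, 1 / ((n:ℝ) + 1) ^ 3) := by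
  set f : ℕ → ℝ := fun n => 1 / ((n:ℝ) + 1) ^ 3 with hf
  have hs := summable_cubes
  have he : Summable (fun k : ℕ => f (2 * k)) := hs.comp_injective
    (fun a b h => by simpa using h)
  have ho : Summable (fun k : ℕ => f (2 * k + 1)) := hs.comp_injective
    (fun a b h => by simpa using h)
  have hsum := tsum_even_add_odd he ho
  have h1 : ∀ k : ℕ, f (2 * k + 1) = (1 / 8) * f k := by
    intro k
    simp only [hf]
    push_cast
    have : (k:ℝ) + 1 ≠ 0 := by positivity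
    have e : (2 * (k:ℝ) + 1 + 1) = 2 * (k + 1) := by ring
    rw [e]
    field_simp
    norm_num
  have h2 : (∑' k : ℕ, f (2 * k + 1)) = (1 / 8) * ∑' k : ℕ, f k := by
    rw [← tsum_mul_left]
    exact tsum_congr h1
  have h3 : (∑' k : ℕ, f (2 * k)) = 7 / 8 * ∑' k : ℕ, f k := by
    rw [h2] at hsum
    linarith
  rw [← h3]
  convert he.hasSum using 2
  rename_i k
  simp only [hf]
  push_cast
  rfl

/-- The area of a filling of the circle of length `2 π` is at least `14 ζ(3) / π`. -/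
theorem area_bound {γ : Circ → X} (hγ : Nonshortcutting γ) {ι : Type*} [Fintype ι] {m : ι → ℝ}
    {S : ι → RSquare X} (h : Fills m S γ) :
    ENNReal.ofReal (14 * (∑' n : ℕ, 1 / ((n:ℝ) + 1) ^ 3) / Real.pi)
      ≤ ∑ i, ENNReal.ofReal |m i| * (S i).area := by
  have h1 : Tendsto (fun N : ℕ => ∑ k ∈ Finset.range N, 1 / (((2 * k + 1 : ℕ) : ℝ)) ^ 3) atTop
      (𝓝 (7 / 8 * ∑' n : ℕ, 1 / ((n:ℝ) + 1) ^ 3)) := odd_cubes.tendsto_sum_nat
  have h2 := (ENNReal.continuous_ofReal.tendsto _).comp (h1.const_mul (16 / Real.pi))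
  have e : 16 / Real.pi * (7 / 8 * ∑' n : ℕ, 1 / ((n:ℝ) + 1) ^ 3)
      = 14 * (∑' n : ℕ, 1 / ((n:ℝ) + 1) ^ 3) / Real.pi := by ring
  rw [e] at h2
  apply le_of_tendsto h2
  filter_upwards with N
  simp only [Function.comp]
  have := partial_bound hγ h ((Finset.range N).image (fun k => 2 * k + 1)) (by
    intro n hn
    obtain ⟨k, _, rfl⟩ := Finset.mem_image.mp hn
    exact ⟨k, rfl⟩)
  rw [Finset.sum_image (fun a _ b _ h => by simpa using h)] at this
  exact this

end Pool.Agent.H86.FA
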