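import Pool.Agent.H86.FA.Defs

/-!
# Stokes' formula on the unit square for two Lipschitz functions
-/

open MeasureTheory Set Filter Topology

noncomputable section

namespace Pool.Agent.H86.FA

/-- Lipschitz in the sum metric. -/
def Lip2 (L : ℝ) (f : ℝ → ℝ → ℝ) : Prop :=
  0 ≤ L ∧ ∀ x y x' y', |f x y - f x' y'| ≤ L * (|x - x'| + |y - y'|)

theorem Lip2.continuous {L : ℝ} {f : ℝ → ℝ → ℝ} (hf : Lip2 L f) :
    Continuous (fun p : ℝ × ℝ => f p.1 p.2) := by
  have : LipschitzWith (Real.toNNReal (2 * L)) (fun p : ℝ × ℝ => f p.1 p.2) := by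
    apply LipschitzWith.of_dist_le_mul
    intro p q
    rw [Real.dist_eq]
    refine (hf.2 _ _ _ _).trans ?_
    rw [Real.coe_toNNReal _ (by linarith [hf.1])]
    have h1 : |p.1 - q.1| ≤ dist p q := by
      rw [← Real.dist_eq]; exact (Prod.dist_eq (x := p) (y := q)) ▸ le_max_left _ _
    have h2 : |p.2 - q.2| ≤ dist p q := by
      rw [← Real.dist_eq]; exact (Prod.dist_eq (x := p) (y := q)) ▸ le_max_right _ _
    nlinarith [hf.1]
  exact this.continuous

theorem Lip2.cont₂ {L : ℝ} {f : ℝ → ℝ → ℝ} (hf : Lip2 L f) {α : Type*} [TopologicalSpace α]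
    {u v : α → ℝ} (hu : Continuous u) (hv : Continuous v) :
    Continuous (fun a => f (u a) (v a)) :=
  hf.continuous.comp (hu.prodMk hv)

theorem Lip2.swap {L : ℝ} {f : ℝ → ℝ → ℝ} (hf : Lip2 L f) : Lip2 L (fun x y => f y x) := by
  refine ⟨hf.1, fun x y x' y' => ?_⟩
  have := hf.2 y x y' x'
  rw [add_comm]; exact this

/-- One dimensional comparison. -/
theorem quot_compare {L M δ : ℝ} (hL : 0 ≤ L) (hM : 0 ≤ M) (hδ : 0 ≤ δ)
    {a a' b b' : ℝ → ℝ} (ha : Continuous a) (ha' : Continuous a') (hb : Continuous b)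
    (hb' : Continuous b')
    (hbL : ∀ y z, |b y - b z| ≤ L * |y - z|) (ha'L : ∀ y z, |a' y - a' z| ≤ L * |y - z|)
    (ha'M : ∀ y ∈ Icc (0:ℝ) 1, |a' y| ≤ M)
    (haa : ∀ y ∈ Icc (0:ℝ) 1, |a y - a' y| ≤ δ)
    (hbb : ∀ y ∈ Icc (0:ℝ) 2, |b y - b' y| ≤ δ)
    {h : ℝ} (h0 : 0 < h) (h1 : h ≤ 1) :
    |(∫ y in (0:ℝ)..1, a y * ((b (y + h) - b y) / h)) -
      ∫ y in (0:ℝ)..1, a' y * ((b' (y + h) - b' y) / h)| ≤ (2 * L + 2 * M) * δ := by
  set c : ℝ → ℝ := fun y => b y - b' y with hc
  have hcc : Continuous c := hb.sub hb'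
  have e1 : (∫ y in (0:ℝ)..1, a y * ((b (y + h) - b y) / h)) -
      (∫ y in (0:ℝ)..1, a' y * ((b' (y + h) - b' y) / h))
      = (∫ y in (0:ℝ)..1, (a y - a' y) * ((b (y + h) - b y) / h)) +
        ∫ y in (0:ℝ)..1, a' y * ((c (y + h) - c y) / h) := by
    rw [← intervalIntegral.integral_sub, ← intervalIntegral.integral_add]
    · apply intervalIntegral.integral_congr
      intro y _
      simp only [hc]
      ring
    · apply Continuous.intervalIntegrable; fun_prop
    · apply Continuous.intervalIntegrable; fun_prop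
    · apply Continuous.intervalIntegrable; fun_prop
    · apply Continuous.intervalIntegrable; fun_prop
  have b1 : |∫ y in (0:ℝ)..1, (a y - a' y) * ((b (y + h) - b y) / h)| ≤ δ * L := by
    have := intervalIntegral.norm_integral_le_of_norm_le_const (a := (0:ℝ)) (b := 1) (C := δ * L)
      (f := fun y => (a y - a' y) * ((b (y + h) - b y) / h)) ?_
    · simpa using this
    · intro y hy
      rw [uIoc_of_le zero_le_one] at hy
      rw [Real.norm_eq_abs, abs_mul]
      apply mul_le_mul (haa y ⟨hy.1.le, hy.2⟩) _ (abs_nonneg _) hδ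
      rw [abs_div, abs_of_pos h0, div_le_iff₀ h0]
      have := hbL (y + h) y
      simpa [abs_of_pos h0] using this
  -- shift
  have e2 : (∫ y in (0:ℝ)..1, a' y * ((c (y + h) - c y) / h))
      = (1 / h) * ((∫ y in h..1, (a' (y - h) - a' y) * c y) + (∫ y in (1:ℝ)..(1 + h), a' (y - h) * c y)
        - ∫ y in (0:ℝ)..h, a' y * c y) := by
    have s1 : (∫ y in (0:ℝ)..1, a' y * ((c (y + h) - c y) / h))
        = (1 / h) * ((∫ y in (0:ℝ)..1, a' y * c (y + h)) - ∫ y in (0:ℝ)..1, a' y * c y) := by
      rw [← intervalIntegral.integral_sub, ← intervalIntegral.integral_const_mul]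
      · apply intervalIntegral.integral_congr
        intro y _
        simp only
        ring
      · apply Continuous.intervalIntegrable; fun_prop
      · apply Continuous.intervalIntegrable; fun_prop
    have s2 : (∫ y in (0:ℝ)..1, a' y * c (y + h)) = ∫ y in h..(1 + h), a' (y - h) * c y := by
      have := intervalIntegral.integral_comp_add_right (a := (0:ℝ)) (b := 1)
        (fun y => a' (y - h) * c y) h
      simpa using this
    have s3 : (∫ y in h..(1 + h), a' (y - h) * c y)
        = (∫ y in h..1, a' (y - h) * c y) + ∫ y in (1:ℝ)..(1 + h), a' (y - h) * c y := by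
      rw [intervalIntegral.integral_add_adjacent_intervals]
      · apply Continuous.intervalIntegrable; fun_prop
      · apply Continuous.intervalIntegrable; fun_prop
    have s4 : (∫ y in (0:ℝ)..1, a' y * c y)
        = (∫ y in (0:ℝ)..h, a' y * c y) + ∫ y in h..1, a' y * c y := by
      rw [intervalIntegral.integral_add_adjacent_intervals]
      · apply Continuous.intervalIntegrable; fun_prop
      · apply Continuous.intervalIntegrable; fun_prop
    have s5 : (∫ y in h..1, (a' (y - h) - a' y) * c y)
        = (∫ y in h..1, a' (y - h) * c y) - ∫ y in h..1, a' y * c y := by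
      rw [← intervalIntegral.integral_sub]
      · apply intervalIntegral.integral_congr
        intro y _
        simp only
        ring
      · apply Continuous.intervalIntegrable; fun_prop
      · apply Continuous.intervalIntegrable; fun_prop
    rw [s1, s2, s3, s4, s5]
    ring
  have c1 : |∫ y in h..1, (a' (y - h) - a' y) * c y| ≤ (L * h) * δ := by
    have := intervalIntegral.norm_integral_le_of_norm_le_const (a := h) (b := 1) (C := (L * h) * δ)
      (f := fun y => (a' (y - h) - a' y) * c y) ?_
    · refine this.trans ?_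
      have h2 : |1 - h| ≤ 1 := by rw [abs_of_nonneg (by linarith)]; linarith
      have h3 : 0 ≤ L * h * δ := by positivity
      nlinarith
    · intro y hy
      rw [uIoc_of_le h1] at hy
      rw [Real.norm_eq_abs, abs_mul]
      apply mul_le_mul _ (hbb y ⟨by linarith [hy.1], by linarith [hy.2]⟩) (abs_nonneg _)
        (by positivity)
      have := ha'L (y - h) y
      have e : |y - h - y| = h := by
        rw [show y - h - y = -h by ring, abs_neg, abs_of_pos h0]
      rwa [e] at this
  have c2 : |∫ y in (1:ℝ)..(1 + h), a' (y - h) * c y| ≤ M * δ * h := by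
    have := intervalIntegral.norm_integral_le_of_norm_le_const (a := (1:ℝ)) (b := 1 + h) (C := M * δ)
      (f := fun y => a' (y - h) * c y) ?_
    · have e : |1 + h - 1| = h := by rw [show 1 + h - 1 = h by ring, abs_of_pos h0]
      rw [e] at this
      exact this
    · intro y hy
      rw [uIoc_of_le (by linarith)] at hy
      rw [Real.norm_eq_abs, abs_mul]
      exact mul_le_mul (ha'M _ ⟨by linarith [hy.1], by linarith [hy.2]⟩)
        (hbb y ⟨by linarith [hy.1], by linarith [hy.2]⟩) (abs_nonneg _) hM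
  have c3 : |∫ y in (0:ℝ)..h, a' y * c y| ≤ M * δ * h := by
    have := intervalIntegral.norm_integral_le_of_norm_le_const (a := (0:ℝ)) (b := h) (C := M * δ)
      (f := fun y => a' y * c y) ?_
    · have e : |h - 0| = h := by rw [sub_zero, abs_of_pos h0]
      rw [e] at this
      exact this
    · intro y hy
      rw [uIoc_of_le h0.le] at hy
      rw [Real.norm_eq_abs, abs_mul]
      exact mul_le_mul (ha'M _ ⟨by linarith [hy.1], by linarith [hy.2]⟩)
        (hbb y ⟨by linarith [hy.1], by linarith [hy.2]⟩) (abs_nonneg _) hM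
  have b2 : |∫ y in (0:ℝ)..1, a' y * ((c (y + h) - c y) / h)| ≤ (L + 2 * M) * δ := by
    rw [e2, abs_mul, abs_of_pos (by positivity)]
    have : |(∫ y in h..1, (a' (y - h) - a' y) * c y) + (∫ y in (1:ℝ)..(1 + h), a' (y - h) * c y)
        - ∫ y in (0:ℝ)..h, a' y * c y| ≤ (L * h) * δ + M * δ * h + M * δ * h := by
      refine (abs_sub _ _).trans ?_
      refine add_le_add ((abs_add_le _ _).trans (add_le_add c1 c2)) c3
    rw [div_mul_eq_mul_div, one_mul, div_le_iff₀ h0]
    refine this.trans (le_of_eq (by ring))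
  rw [e1]
  refine (abs_add_le _ _).trans ((add_le_add b1 b2).trans (le_of_eq (by ring)))

end Pool.Agent.H86.FA
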