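import Pool.Agent.H86.FA.Stokes

open MeasureTheory Set Filter Topology

noncomputable section

namespace Pool.Agent.H86.FA

/-- The inner integral of the discrete boundary form. -/
def inner1 (f g : ℝ → ℝ → ℝ) (h x : ℝ) : ℝ :=
  ∫ y in (0:ℝ)..1, f x y * ((g x (y + h) - g x y) / h)

theorem inner1_continuous {L : ℝ} {f g : ℝ → ℝ → ℝ} (hf : Lip2 L f) (hg : Lip2 L g) (h : ℝ) :
    Continuous (inner1 f g h) := by
  unfold inner1
  apply intervalIntegral.continuous_parametric_intervalIntegral_of_continuous'
  have h1 : Continuous (fun p : ℝ × ℝ => f p.1 p.2) := hf.continuous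
  have h2 : Continuous (fun p : ℝ × ℝ => g p.1 p.2) := hg.continuous
  have h3 : Continuous (fun p : ℝ × ℝ => g p.1 (p.2 + h)) :=
    hg.cont₂ continuous_fst (by fun_prop)
  change Continuous (fun p : ℝ × ℝ => f p.1 p.2 * ((g p.1 (p.2 + h) - g p.1 p.2) / h))
  exact h1.mul ((h3.sub h2).div_const h)

theorem Lip2.lip_snd {L : ℝ} {f : ℝ → ℝ → ℝ} (hf : Lip2 L f) (x y z : ℝ) :
    |f x y - f x z| ≤ L * |y - z| := by
  have := hf.2 x y x z
  simpa using this

theorem Lip2.lip_fst {L : ℝ} {f : ℝ → ℝ → ℝ} (hf : Lip2 L f) (x x' y : ℝ) :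
    |f x y - f x' y| ≤ L * |x - x'| := by
  have := hf.2 x y x' y
  simpa using this

theorem lipschitz_of_abs {L : ℝ} (hL : 0 ≤ L) {u : ℝ → ℝ} (h : ∀ y z, |u y - u z| ≤ L * |y - z|) :
    LipschitzWith (Real.toNNReal L) u := by
  apply LipschitzWith.of_dist_le_mul
  intro y z
  rw [Real.dist_eq, Real.dist_eq, Real.coe_toNNReal _ hL]
  exact h y z

theorem inner1_limit {L : ℝ} {f g : ℝ → ℝ → ℝ} (hf : Lip2 L f) (hg : Lip2 L g) (x0 : ℝ) :
    Tendsto (fun h => inner1 f g h x0) (𝓝[>] 0)
      (𝓝 (∫ y in (0:ℝ)..1, f x0 y * deriv (g x0) y)) := by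
  unfold inner1
  have hL := hf.1
  have cf : Continuous (f x0) := hf.cont₂ continuous_const continuous_id
  have cg : Continuous (g x0) := hg.cont₂ continuous_const continuous_id
  apply intervalIntegral.tendsto_integral_filter_of_dominated_convergence
    (fun y => |f x0 y| * L)
  · filter_upwards with h
    apply Continuous.aestronglyMeasurable
    fun_prop
  · filter_upwards [self_mem_nhdsWithin] with h hh
    have h0 : (0:ℝ) < h := hh
    filter_upwards with y _
    rw [Real.norm_eq_abs, abs_mul]
    apply mul_le_mul_of_nonneg_left _ (abs_nonneg _)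
    rw [abs_div, abs_of_pos h0, div_le_iff₀ h0]
    have := hg.lip_snd x0 (y + h) y
    simpa [abs_of_pos h0] using this
  · apply Continuous.intervalIntegrable
    fun_prop
  · have hd := (lipschitz_of_abs hL (fun y z => hg.lip_snd x0 y z)).ae_differentiableAt_real
    filter_upwards [hd] with y hy _
    apply Tendsto.const_mul
    have := hy.hasDerivAt.tendsto_slope_zero_right
    refine this.congr (fun h => ?_)
    rw [smul_eq_mul, div_eq_inv_mul]

theorem trace_tendsto {L : ℝ} {f g : ℝ → ℝ → ℝ} (hf : Lip2 L f) (hg : Lip2 L g) (x0 : ℝ) :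
    Tendsto (fun h => (1 / h) * ∫ x in x0..(x0 + h), inner1 f g h x) (𝓝[>] 0)
      (𝓝 (∫ y in (0:ℝ)..1, f x0 y * deriv (g x0) y)) := by
  have hL := hf.1
  set M : ℝ := |f x0 0| + L with hM
  have hM0 : 0 ≤ M := by positivity
  have key : ∀ᶠ h in 𝓝[>] (0:ℝ),
      |(1 / h) * (∫ x in x0..(x0 + h), inner1 f g h x) - inner1 f g h x0|
        ≤ (2 * L + 2 * M) * L * h := by
    have hmem : ∀ᶠ h in 𝓝[>] (0:ℝ), h < 1 :=
      nhdsWithin_le_nhds (Iio_mem_nhds one_pos)
    filter_upwards [self_mem_nhdsWithin, hmem] with h hh h1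
    have h0 : (0:ℝ) < h := hh
    have bound : ∀ x ∈ Icc x0 (x0 + h), |inner1 f g h x - inner1 f g h x0|
        ≤ (2 * L + 2 * M) * (L * h) := by
      intro x hx
      have hxa : |x - x0| ≤ h := by
        rw [abs_of_nonneg (by linarith [hx.1])]; linarith [hx.2]
      have hLh : L * |x - x0| ≤ L * h := mul_le_mul_of_nonneg_left hxa hL
      unfold inner1
      apply quot_compare hL hM0 (by positivity)
        (hf.cont₂ continuous_const continuous_id) (hf.cont₂ continuous_const continuous_id)
        (hg.cont₂ continuous_const continuous_id) (hg.cont₂ continuous_const continuous_id)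
        (fun y z => hg.lip_snd x y z) (fun y z => hf.lip_snd x0 y z) _ _ _ h0 h1.le
      · intro y hy
        have := hf.lip_snd x0 y 0
        have h3 : |f x0 y| ≤ |f x0 0| + |f x0 y - f x0 0| := by
          have := abs_add_le (f x0 0) (f x0 y - f x0 0)
          simpa using this
        have h4 : L * |y - 0| ≤ L := by
          rw [sub_zero, abs_of_nonneg hy.1]
          nlinarith [hy.2]
        change |f x0 y| ≤ M
        linarith
      · intro y _
        exact (hf.lip_fst x x0 y).trans hLh
      · intro y _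
        exact (hg.lip_fst x x0 y).trans hLh
    have hcont := inner1_continuous hf hg h
    have e : (1 / h) * (∫ x in x0..(x0 + h), inner1 f g h x) - inner1 f g h x0
        = (1 / h) * ∫ x in x0..(x0 + h), (inner1 f g h x - inner1 f g h x0) := by
      rw [intervalIntegral.integral_sub (hcont.intervalIntegrable _ _)
        (continuous_const.intervalIntegrable _ _)]
      simp only [intervalIntegral.integral_const, add_sub_cancel_left, smul_eq_mul]
      field_simp
    rw [e, abs_mul, abs_of_pos (by positivity)]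
    have hb := intervalIntegral.norm_integral_le_of_norm_le_const (a := x0) (b := x0 + h)
      (C := (2 * L + 2 * M) * (L * h)) (f := fun x => inner1 f g h x - inner1 f g h x0) ?_
    · rw [Real.norm_eq_abs, show |x0 + h - x0| = h by
        rw [add_sub_cancel_left, abs_of_pos h0]] at hb
      rw [div_mul_eq_mul_div, one_mul, div_le_iff₀ h0]
      refine hb.trans (le_of_eq (by ring))
    · intro x hx
      rw [uIoc_of_le (by linarith)] at hx
      exact bound x ⟨hx.1.le, hx.2⟩
  have hlim : Tendsto (fun h : ℝ => (2 * L + 2 * M) * L * h) (𝓝[>] 0) (𝓝 0) := by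
    have : Tendsto (fun h : ℝ => (2 * L + 2 * M) * L * h) (𝓝 0) (𝓝 ((2 * L + 2 * M) * L * 0)) :=
      tendsto_id.const_mul _
    rw [mul_zero] at this
    exact this.mono_left nhdsWithin_le_nhds
  have hdiff : Tendsto (fun h => (1 / h) * (∫ x in x0..(x0 + h), inner1 f g h x)
      - inner1 f g h x0) (𝓝[>] 0) (𝓝 0) :=
    squeeze_zero_norm' (by simpa only [Real.norm_eq_abs] using key) hlim
  have := hdiff.add (inner1_limit hf hg x0)
  simpa using this

/-! ### The discrete identity -/

theorem discrete_id (f g : ℝ → ℝ → ℝ) (h x y : ℝ) :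
    ((f (x + h) y - f x y) / h) * ((g (x + h) (y + h) - g (x + h) y) / h)
      - ((f x (y + h) - f x y) / h) * ((g (x + h) (y + h) - g x (y + h)) / h)
    = (f (x + h) y * ((g (x + h) (y + h) - g (x + h) y) / h)
        - f x y * ((g x (y + h) - g x y) / h)) / h
      - (f x (y + h) * ((g (x + h) (y + h) - g x (y + h)) / h)
        - f x y * ((g (x + h) y - g x y) / h)) / h := by
  ring

/-- Difference quotient integral telescopes. -/
theorem quot_integral {P : ℝ → ℝ} (hP : Continuous P) {h : ℝ} :
    (∫ x in (0:ℝ)..1, (P (x + h) - P x) / h)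
      = (1 / h) * (∫ x in (1:ℝ)..(1 + h), P x) - (1 / h) * ∫ x in (0:ℝ)..(0 + h), P x := by
  have e1 : (∫ x in (0:ℝ)..1, (P (x + h) - P x) / h)
      = (1 / h) * ((∫ x in (0:ℝ)..1, P (x + h)) - ∫ x in (0:ℝ)..1, P x) := by
    rw [← intervalIntegral.integral_sub, ← intervalIntegral.integral_const_mul]
    · apply intervalIntegral.integral_congr
      intro y _
      simp only
      ring
    · apply Continuous.intervalIntegrable; fun_prop
    · apply Continuous.intervalIntegrable; fun_prop
  have e2 : (∫ x in (0:ℝ)..1, P (x + h)) = ∫ x in (0 + h)..(1 + h), P x :=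
    intervalIntegral.integral_comp_add_right P h
  have hi : ∀ a b : ℝ, IntervalIntegrable P volume a b := fun a b => hP.intervalIntegrable a b
  have e3 := intervalIntegral.integral_add_adjacent_intervals (hi 0 (0 + h)) (hi (0 + h) (1 + h))
  have e4 := intervalIntegral.integral_add_adjacent_intervals (hi 0 1) (hi 1 (1 + h))
  rw [e1, e2]
  have : (∫ x in (0 + h)..(1 + h), P x) - ∫ x in (0:ℝ)..1, P x
      = (∫ x in (1:ℝ)..(1 + h), P x) - ∫ x in (0:ℝ)..(0 + h), P x := by linarith
  rw [this]
  ring

/-- The discrete integrand. -/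
def disc (f g : ℝ → ℝ → ℝ) (h x y : ℝ) : ℝ :=
  ((f (x + h) y - f x y) / h) * ((g (x + h) (y + h) - g (x + h) y) / h)
      - ((f x (y + h) - f x y) / h) * ((g (x + h) (y + h) - g x (y + h)) / h)

theorem disc_continuous {L : ℝ} {f g : ℝ → ℝ → ℝ} (hf : Lip2 L f) (hg : Lip2 L g) (h : ℝ) :
    Continuous (fun p : ℝ × ℝ => disc f g h p.1 p.2) := by
  unfold disc
  have a1 : Continuous (fun p : ℝ × ℝ => f p.1 p.2) := hf.continuous
  have a2 : Continuous (fun p : ℝ × ℝ => f (p.1 + h) p.2) := hf.cont₂ (by fun_prop) (by fun_prop)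
  have a3 : Continuous (fun p : ℝ × ℝ => f p.1 (p.2 + h)) := hf.cont₂ (by fun_prop) (by fun_prop)
  have b1 : Continuous (fun p : ℝ × ℝ => g (p.1 + h) (p.2 + h)) :=
    hg.cont₂ (by fun_prop) (by fun_prop)
  have b2 : Continuous (fun p : ℝ × ℝ => g (p.1 + h) p.2) := hg.cont₂ (by fun_prop) (by fun_prop)
  have b3 : Continuous (fun p : ℝ × ℝ => g p.1 (p.2 + h)) := hg.cont₂ (by fun_prop) (by fun_prop)
  exact (((a2.sub a1).div_const h).mul ((b1.sub b2).div_const h)).sub
    (((a3.sub a1).div_const h).mul ((b1.sub b3).div_const h))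

theorem disc_integral {L : ℝ} {f g : ℝ → ℝ → ℝ} (hf : Lip2 L f) (hg : Lip2 L g) (h : ℝ) :
    (∫ x in (0:ℝ)..1, ∫ y in (0:ℝ)..1, disc f g h x y)
      = ((1 / h) * (∫ x in (1:ℝ)..(1 + h), inner1 f g h x)
          - (1 / h) * ∫ x in (0:ℝ)..(0 + h), inner1 f g h x)
        - ((1 / h) * (∫ y in (1:ℝ)..(1 + h), inner1 (fun a b => f b a) (fun a b => g b a) h y)
          - (1 / h) * ∫ y in (0:ℝ)..(0 + h),
              inner1 (fun a b => f b a) (fun a b => g b a) h y) := by
  have a1 : Continuous (fun p : ℝ × ℝ => f p.1 p.2) := hf.continuous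
  have a2 : Continuous (fun p : ℝ × ℝ => f (p.1 + h) p.2) := hf.cont₂ (by fun_prop) (by fun_prop)
  have a3 : Continuous (fun p : ℝ × ℝ => f p.1 (p.2 + h)) := hf.cont₂ (by fun_prop) (by fun_prop)
  have b0 : Continuous (fun p : ℝ × ℝ => g p.1 p.2) := hg.continuous
  have b1 : Continuous (fun p : ℝ × ℝ => g (p.1 + h) (p.2 + h)) :=
    hg.cont₂ (by fun_prop) (by fun_prop)
  have b2 : Continuous (fun p : ℝ × ℝ => g (p.1 + h) p.2) := hg.cont₂ (by fun_prop) (by fun_prop)
  have b3 : Continuous (fun p : ℝ × ℝ => g p.1 (p.2 + h)) := hg.cont₂ (by fun_prop) (by fun_prop)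
  set P : ℝ → ℝ → ℝ := fun x y => f x y * ((g x (y + h) - g x y) / h) with hP
  set Q : ℝ → ℝ → ℝ := fun x y => f x y * ((g (x + h) y - g x y) / h) with hQ
  have cP : Continuous (Function.uncurry P) := by
    change Continuous (fun p : ℝ × ℝ => f p.1 p.2 * ((g p.1 (p.2 + h) - g p.1 p.2) / h))
    fun_prop
  have cQ : Continuous (Function.uncurry Q) := by
    change Continuous (fun p : ℝ × ℝ => f p.1 p.2 * ((g (p.1 + h) p.2 - g p.1 p.2) / h))
    fun_prop
  have cP' : Continuous (Function.uncurry fun x y => (P (x + h) y - P x y) / h) := by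
    have c1 : Continuous (fun p : ℝ × ℝ => P (p.1 + h) p.2) :=
      cP.comp (f := fun p : ℝ × ℝ => (p.1 + h, p.2)) (by fun_prop)
    exact (c1.sub cP).div_const h
  have cQ' : Continuous (Function.uncurry fun x y => (Q x (y + h) - Q x y) / h) := by
    have c1 : Continuous (fun p : ℝ × ℝ => Q p.1 (p.2 + h)) :=
      cQ.comp (f := fun p : ℝ × ℝ => (p.1, p.2 + h)) (by fun_prop)
    exact (c1.sub cQ).div_const h
  have e0 : ∀ x y, disc f g h x y = (P (x + h) y - P x y) / h - (Q x (y + h) - Q x y) / h := by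
    intro x y
    unfold disc
    rw [discrete_id]
  have e1 : (∫ x in (0:ℝ)..1, ∫ y in (0:ℝ)..1, disc f g h x y)
      = (∫ x in (0:ℝ)..1, ∫ y in (0:ℝ)..1, (P (x + h) y - P x y) / h)
        - ∫ x in (0:ℝ)..1, ∫ y in (0:ℝ)..1, (Q x (y + h) - Q x y) / h := by
    rw [← intervalIntegral.integral_sub]
    · apply intervalIntegral.integral_congr
      intro x _
      simp only
      rw [← intervalIntegral.integral_sub]
      · apply intervalIntegral.integral_congr
        intro y _
        exact e0 x y
      · apply Continuous.intervalIntegrable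
        exact cP'.comp (Continuous.prodMk_right x)
      · apply Continuous.intervalIntegrable
        exact cQ'.comp (Continuous.prodMk_right x)
    · apply Continuous.intervalIntegrable
      exact intervalIntegral.continuous_parametric_intervalIntegral_of_continuous' cP' _ _
    · apply Continuous.intervalIntegrable
      exact intervalIntegral.continuous_parametric_intervalIntegral_of_continuous' cQ' _ _
  have e2 : (∫ x in (0:ℝ)..1, ∫ y in (0:ℝ)..1, (P (x + h) y - P x y) / h)
      = (1 / h) * (∫ x in (1:ℝ)..(1 + h), inner1 f g h x)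
          - (1 / h) * ∫ x in (0:ℝ)..(0 + h), inner1 f g h x := by
    have e3 : ∀ x, (∫ y in (0:ℝ)..1, (P (x + h) y - P x y) / h)
        = (inner1 f g h (x + h) - inner1 f g h x) / h := by
      intro x
      unfold inner1
      rw [← intervalIntegral.integral_sub, ← intervalIntegral.integral_div]
      · apply Continuous.intervalIntegrable
        exact cP.comp (Continuous.prodMk_right (x + h))
      · apply Continuous.intervalIntegrable
        exact cP.comp (Continuous.prodMk_right x)
    simp only [e3]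
    exact quot_integral (inner1_continuous hf hg h)
  have e4 : (∫ x in (0:ℝ)..1, ∫ y in (0:ℝ)..1, (Q x (y + h) - Q x y) / h)
      = (1 / h) * (∫ y in (1:ℝ)..(1 + h), inner1 (fun a b => f b a) (fun a b => g b a) h y)
          - (1 / h) * ∫ y in (0:ℝ)..(0 + h),
              inner1 (fun a b => f b a) (fun a b => g b a) h y := by
    rw [intervalIntegral_intervalIntegral_swap]
    · have e5 : ∀ y, (∫ x in (0:ℝ)..1, (Q x (y + h) - Q x y) / h)
        = (inner1 (fun a b => f b a) (fun a b => g b a) h (y + h)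
            - inner1 (fun a b => f b a) (fun a b => g b a) h y) / h := by
        intro y
        unfold inner1
        rw [← intervalIntegral.integral_sub, ← intervalIntegral.integral_div]
        · apply Continuous.intervalIntegrable
          exact cQ.comp (Continuous.prodMk_left (y + h))
        · apply Continuous.intervalIntegrable
          exact cQ.comp (Continuous.prodMk_left y)
      simp only [e5]
      exact quot_integral (inner1_continuous hf.swap hg.swap h)
    · have hc : IsCompact (Icc (0:ℝ) 1 ×ˢ Icc (0:ℝ) 1) := isCompact_Icc.prod isCompact_Icc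
      have := (cQ'.continuousOn (s := Icc (0:ℝ) 1 ×ˢ Icc (0:ℝ) 1)).integrableOn_compact
        (μ := volume) hc
      refine this.mono_set ?_
      rw [uIoc_of_le zero_le_one]
      exact prod_mono Ioc_subset_Icc_self Ioc_subset_Icc_self
  rw [e1, e2, e4]

theorem disc_tendsto {L : ℝ} {f g : ℝ → ℝ → ℝ} (hf : Lip2 L f) (hg : Lip2 L g) :
    Tendsto (fun h => ∫ x in (0:ℝ)..1, ∫ y in (0:ℝ)..1, disc f g h x y) (𝓝[>] 0)
      (𝓝 (bdy f g)) := by
  simp only [disc_integral hf hg]
  have h1 := trace_tendsto hf hg 1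
  have h2 := trace_tendsto hf hg 0
  have h3 := trace_tendsto hf.swap hg.swap 1
  have h4 := trace_tendsto hf.swap hg.swap 0
  have := (h1.sub h2).sub (h3.sub h4)
  convert this using 2
  unfold bdy
  ring

end Pool.Agent.H86.FA
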